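import Pool.Agent.Work.MP_46935e_lc.S1.Inst
import Pool.Agent.Work.PT.Auto

/-!
# The theorem
-/

set_option autoImplicit false

noncomputable section

namespace Pool.Agent.S1

open Pool.Agent.RO Pool.Agent.PT Pool.Agent.Work.MP_46935e_lc N68a2faeb

/-! ### Separators -/

/-- Step function of the separator. -/
def sepG (l a : ℕ) (P : Polynomial ℕ) (p : List Bool × List Bool) : Bool × List Bool :=
  if p.2.isEmpty = true then (false, eZ l (2 * P.eval p.1.length + a) p.1)
  else (true, [p.2.headD false])

lemma ptf_sepG (l a : ℕ) (P : Polynomial ℕ) : PTF (sepG l a P) := by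
  have h1 : PTF (fun p : List Bool × List Bool => P.eval p.1.length) :=
    ptf_eval P (PTF.fst.length)
  unfold sepG eZ
  fun_prop

lemma sep_poly (O : List Bool → Bool) (l a : ℕ) (P : Polynomial ℕ) :
    IsPolyTimeRel O (fun x : List Bool => O (eZ l (2 * P.eval x.length + a) x)) := by
  refine ⟨sepG l a P, 2, of_ptf_P (ptf_sepG l a P), fun x => ?_⟩
  rw [Polynomial.eval_ofNat]
  show orun (sepG l a P) O x 2 [] = some [O (eZ l (2 * P.eval x.length + a) x)]
  have h1 : sepG l a P (x, []) = (false, eZ l (2 * P.eval x.length + a) x) := rfl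
  have h2 : ∀ b, sepG l a P (x, [b]) = (true, [b]) := fun b => rfl
  rw [orun, h1]
  simp only [Bool.false_eq_true, if_false, List.nil_append]
  rw [orun, h2]
  simp only [if_true]

/-! ### The search problems -/

/-- The search problem number `k` with threshold `m`. -/
def tV (O : List Bool → Bool) (k m : ℕ) (p : List Bool × List Bool) : Bool :=
  if p.1.length < m then p.2.isEmpty else
    if p.2.length = p.1.length then O (eO k p.2) else false

/-- Its step function. -/
def tG (k m : ℕ) (p : (List Bool × List Bool) × List Bool) : Bool × List Bool :=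
  if p.1.1.length < m then (true, [p.1.2.isEmpty]) else
    if p.1.2.length = p.1.1.length then
      (if p.2.isEmpty = true then (false, eO k p.1.2) else (true, [p.2.headD false]))
    else (true, [false])

lemma ptf_tG (k m : ℕ) : PTF (tG k m) := by
  unfold tG eO
  fun_prop

lemma tV_poly (O : List Bool → Bool) (k m : ℕ) : IsPolyTimeRel O (tV O k m) := by
  refine ⟨tG k m, 2, of_ptf_T (ptf_tG k m), fun p => ?_⟩
  rw [Polynomial.eval_ofNat]
  show orun (tG k m) O p 2 [] = some [tV O k m p]
  obtain ⟨x, y⟩ := p
  by_cases h1 : x.length < m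
  · have e : tG k m ((x, y), []) = (true, [y.isEmpty]) := by
      unfold tG; simp only [if_pos h1]
    rw [orun, e]
    simp only [if_true, tV, if_pos h1]
  · by_cases h2 : y.length = x.length
    · have e1 : tG k m ((x, y), []) = (false, eO k y) := by
        unfold tG
        simp only [if_neg h1, if_pos h2]
        rfl
      have e2 : ∀ b, tG k m ((x, y), [b]) = (true, [b]) := by
        intro b
        unfold tG
        simp only [if_neg h1, if_pos h2]
        rfl
      rw [orun, e1]
      simp only [Bool.false_eq_true, if_false, List.nil_append]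
      rw [orun, e2]
      simp only [if_true, tV, if_neg h1, if_pos h2]
    · have e : tG k m ((x, y), []) = (true, [false]) := by
        unfold tG; simp only [if_neg h1, if_neg h2]
      rw [orun, e]
      simp only [if_true, tV, if_neg h1, if_neg h2]

lemma tV_tfnp {O : List Bool → Bool} {k m : ℕ}
    (h : ∀ n, m ≤ n → ∃ y : Str, y.length = n ∧ O (eO k y) = true) : IsTFNPRel O (tV O k m) := by
  refine ⟨tV_poly O k m, ⟨Polynomial.X, fun x w hw => ?_⟩, fun x => ?_⟩
  · rw [Polynomial.eval_X]
    unfold tV at hw
    simp only at hw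
    split_ifs at hw with h1 h2
    · rw [List.isEmpty_iff] at hw
      rw [hw]
      exact Nat.zero_le _
    · exact h2.le
  · by_cases h1 : x.length < m
    · exact ⟨[], by unfold tV; simp only [if_pos h1, List.isEmpty_nil]⟩
    · obtain ⟨y, hy, hy'⟩ := h x.length (not_lt.1 h1)
      exact ⟨y, by unfold tV; simp only [if_neg h1, if_pos hy, hy']⟩

lemma tV_big {O : List Bool → Bool} {k m : ℕ} {x y : Str} (hx : m ≤ x.length)
    (h : tV O k m (x, y) = true) : y.length = x.length ∧ O (eO k y) = true := by
  unfold tV at h
  simp only [if_neg (not_lt.2 hx)] at h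
  split_ifs at h with h2
  exact ⟨h2, h⟩

/-! ### The trivial pair is complete -/

/-- The output of the step function `g` is encoded. -/
def encG (g : List Bool × List Bool → Bool × List Bool) (p : List Bool × List Bool) :
    Bool × List Bool :=
  if (g p).1 = true then (true, encB (g p).2) else (false, (g p).2)

lemma ptf_encG {g : List Bool × List Bool → Bool × List Bool} (hg : PTF g) : PTF (encG g) := by
  have h1 : PTF (fun p => encB (g p).2) := ptf_encB (PTF.snd.comp hg)
  unfold encG
  fun_prop

lemma orun_encG (g : List Bool × List Bool → Bool × List Bool) (O : List Bool → Bool)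
    (x y : List Bool) (t : ℕ) : ∀ a, orun g O x t a = some y →
      orun (encG g) O x t a = some (encB y) := by
  induction t with
  | zero => intro a h; cases h
  | succ t ih =>
    intro a h
    rw [orun] at h ⊢
    by_cases hg : (g (x, a)).1 = true
    · rw [if_pos hg] at h
      have e : encG g (x, a) = (true, encB (g (x, a)).2) := by unfold encG; rw [if_pos hg]
      rw [e]
      simp only [if_true]
      rw [Option.some.inj h]
    · rw [if_neg hg] at h
      have e : encG g (x, a) = (false, (g (x, a)).2) := by unfold encG; rw [if_neg hg]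
      rw [e]
      simp only [Bool.false_eq_true, if_false]
      exact ih _ h

lemma singleton_poly {O : List Bool → Bool} {S : List Bool → Bool} (h : IsPolyTimeRel O S) :
    IsPolyTimeRel O (fun x => [S x]) := by
  obtain ⟨g, p, hg, hr⟩ := h
  refine ⟨encG g, p, of_ptf_P (ptf_encG (ptf_of_P hg)), fun x => ?_⟩
  show _ = some (N487b59b3.bitEncode [S x])
  rw [bitEncode_list [S x]]
  exact orun_encG g O x [S x] _ [] (hr x)

/-- The singleton `{[b]}`. -/
def oneL (b : Bool) : DecisionProblem := fun x => decide (x = [b])

lemma oneL_coNP (O : List Bool → Bool) (b : Bool) : oneL b ∈ coNPRel O := by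
  show (oneL b)ᶜ ∈ NPRel O
  have hc : ∀ x, (oneL b)ᶜ x = !(decide (x = [b])) := fun x => rfl
  have hp : PTF (fun p : (List Bool × List Bool) × List Bool =>
      ((true, [!(decide (p.1.1 = [b]))]) : Bool × List Bool)) := by
    have h1 : PTF (fun p : (List Bool × List Bool) × List Bool => decide (p.1.1 = [b])) :=
      (PTF.fst.fst').eq (PTF.const [b])
    fun_prop
  refine ⟨0, fun p => !(decide (p.1 = [b])), ⟨_, 1, of_ptf_T hp, fun p => ?_⟩, fun x => ?_⟩
  · rw [Polynomial.eval_one]
    rfl
  · rw [hc]
    constructor
    · intro h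
      exact ⟨[], Nat.zero_le _, h⟩
    · rintro ⟨w, -, h⟩
      exact h

lemma pair0 (O : List Bool → Bool) : IsDisjointCoNPPairRel O (oneL true) (oneL false) := by
  refine ⟨oneL_coNP O true, oneL_coNP O false, ?_⟩
  rintro x ⟨h1, h2⟩
  simp only [oneL, decide_eq_true_eq] at h1 h2
  rw [h1] at h2
  cases h2

/-! ### The theorem -/

theorem main : ∃ O : List Bool → Bool,
    (∀ A B : DecisionProblem, IsDisjointCoNPPairRel O A B →
      ∃ S : DecisionProblem, IsPolyTimeRel O S ∧ Separates S A B) ∧
    ∀ V : List Bool × List Bool → Bool, IsTFNPRel O V →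
      ∃ V' : List Bool × List Bool → Bool, IsTFNPRel O V' ∧ ¬ SearchReducibleRel O V' V ∧
        ¬ SearchTuringReducibleRel O V' V := by
  obtain ⟨pairs, hpairs⟩ := exists_surjective_nat (VD × VD)
  obtain ⟨cands, hcands⟩ := exists_surjective_nat VD
  obtain ⟨reds, hreds⟩ := exists_surjective_nat Red
  obtain ⟨O, h1, h2⟩ := exists_world (theData pairs cands reds)
  refine ⟨O, ?_, ?_⟩
  · intro A B hAB
    obtain ⟨dA, hdA⟩ := exists_VD (R := O) (L := Aᶜ) hAB.memA
    obtain ⟨dB, hdB⟩ := exists_VD (R := O) (L := Bᶜ) hAB.memB
    obtain ⟨l, hl⟩ := hpairs (dA, dB)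
    have hcA : ∀ x, Aᶜ x = !(A x) := fun x => rfl
    have hcB : ∀ x, Bᶜ x = !(B x) := fun x => rfl
    have hl1 : (pairs l).1 = dA := by rw [hl]
    have hl2 : (pairs l).2 = dB := by rw [hl]
    rcases h1 l with ⟨x, hx⟩ | ⟨a, ha⟩
    · exfalso
      have hA : A x = true := by
        by_contra hc
        have h3 : acc dA O x := (hdA x).1 (by rw [hcA]; simpa using hc)
        refine hx false ?_
        show acc (if false = true then (pairs l).2 else (pairs l).1) O x
        rw [if_neg (by simp), hl1]
        exact h3
      have hB : B x = true := by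
        by_contra hc
        have h3 : acc dB O x := (hdB x).1 (by rw [hcB]; simpa using hc)
        refine hx true ?_
        show acc (if true = true then (pairs l).2 else (pairs l).1) O x
        rw [if_pos rfl, hl2]
        exact h3
      exact hAB.disjoint x ⟨hA, hB⟩
    · set P := pairP (pairs l) with hP
      refine ⟨fun x => O (eZ l (2 * P.eval x.length + a) x), sep_poly O l a P, ?_, ?_⟩
      · intro x hx
        have h3 := ha (eZ l (2 * P.eval x.length + a) x) x ⟨_, rfl, by rw [length_eZ, ← hP]; omega⟩
          (by rw [length_eZ]; omega)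
        by_contra hc
        have h4 : O (eZ l (2 * P.eval x.length + a) x) = false := by simpa using hc
        rw [h4] at h3
        have h5 : acc (if false = true then (pairs l).2 else (pairs l).1) O x := h3
        rw [if_neg (by simp), hl1] at h5
        have h6 := (hdA x).2 h5
        rw [hcA, hx] at h6
        cases h6
      · intro x hx
        have h3 := ha (eZ l (2 * P.eval x.length + a) x) x ⟨_, rfl, by rw [length_eZ, ← hP]; omega⟩
          (by rw [length_eZ]; omega)
        by_contra hc
        have h4 : O (eZ l (2 * P.eval x.length + a) x) = true := by simpa using hc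
        rw [h4] at h3
        have h5 : acc (if true = true then (pairs l).2 else (pairs l).1) O x := h3
        rw [if_pos rfl, hl2] at h5
        have h6 := (hdB x).2 h5
        rw [hcB, hx] at h6
        cases h6
  · intro V hV
    obtain ⟨g, q, hg, hr⟩ := hV.poly
    obtain ⟨p, hp⟩ := hV.bounded
    obtain ⟨k, hk⟩ := hcands ⟨p, g, q, hg⟩
    have hsol : ∀ x w, vsol (cands k) x w O ↔ V (x, w) = true := by
      intro x w
      rw [hk]
      have h3 : orun g O (x, w) (q.eval (N487b59b3.bitEncode (x, w)).length) [] =
        some [V (x, w)] := hr (x, w)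
      constructor
      · rintro ⟨-, h4⟩
        have h5 : some [V (x, w)] = some [true] := h3.symm.trans h4
        simpa using h5
      · intro h4
        refine ⟨hp x w h4, ?_⟩
        show orun g O (x, w) (q.eval (N487b59b3.bitEncode (x, w)).length) [] = some [true]
        rw [h3, h4]
    rcases h2 k with ⟨x, hx⟩ | ⟨m, hm, hf⟩
    · exfalso
      obtain ⟨w, hw⟩ := hV.total x
      exact hx w ((hsol x w).2 hw)
    · refine ⟨tV O k m, tV_tfnp hm, ?_, ?_⟩
      · rintro ⟨f, h, ⟨g₁, p₁, hg₁, hr₁⟩, ⟨g₂, p₂, hg₂, hr₂⟩, hred⟩
        obtain ⟨r, hr'⟩ := hreds (.mo g₁ p₁ hg₁ g₂ p₂ hg₂)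
        obtain ⟨n, hn, S, hS, hno⟩ := hf r
        have hS' : ∀ q, V (q, S q) = true := fun q => (hsol q (S q)).1 (hS q)
        refine hno ⟨h (List.replicate n true, S (f (List.replicate n true))), ?_, ?_⟩
        · rw [hr']
          simp only [Red.run]
          rw [hr₁, Option.bind_some, bitEncode_list, unB_encB, hr₂, Option.map_some,
            bitEncode_list, unB_encB]
        · have h3 := hred (List.replicate n true) _ (hS' (f (List.replicate n true)))
          have h4 := tV_big (by rw [List.length_replicate]; exact hn) h3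
          rw [List.length_replicate] at h4
          exact h4
      · rintro ⟨g₁, p₁, hg₁, hred⟩
        obtain ⟨r, hr'⟩ := hreds (.tu g₁ p₁ hg₁)
        obtain ⟨n, hn, S, hS, hno⟩ := hf r
        have hS' : ∀ q, V (q, S q) = true := fun q => (hsol q (S q)).1 (hS q)
        obtain ⟨y, h3, h4⟩ := hred S hS' (List.replicate n true)
        refine hno ⟨y, ?_, ?_⟩
        · rw [hr']
          exact h3
        · have h5 := tV_big (by rw [List.length_replicate]; exact hn) h4
          rw [List.length_replicate] at h5
          exact h5

end Pool.Agent.S1
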