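import Pool.Agent.Work.MP_46935e_lc.RO.Defs

/-!
# Total NP search problems relative to an oracle
-/

set_option autoImplicit false

namespace Pool.Agent.S1

open Pool.Agent.RO N68a2faeb

/-- Total NP search problems relative to `R`: `V (x, w) = true` says that `w` is a solution of the
instance `x`. -/
structure IsTFNPRel (R : List Bool → Bool) (V : List Bool × List Bool → Bool) : Prop where
  poly : IsPolyTimeRel R V
  bounded : ∃ p : Polynomial ℕ, ∀ x w, V (x, w) = true → w.length ≤ p.eval x.length
  total : ∀ x, ∃ w, V (x, w) = true

/-- Many-one reducibility of the search problem `V` to the search problem `V'` relative to `R`. -/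
def SearchReducibleRel (R : List Bool → Bool) (V V' : List Bool × List Bool → Bool) : Prop :=
  ∃ (f : List Bool → List Bool) (h : List Bool × List Bool → List Bool), IsPolyTimeRel R f ∧
    IsPolyTimeRel R h ∧ ∀ x w, V' (f x, w) = true → V (x, h (x, w)) = true

/-- The bits of a function `S` on strings as an oracle: the answer to the query `1^i 0 1 q` is the
bit number `i` of `S q`, and the answer to the query `1^i 0 0 q` says whether `i < |S q|`. -/
def bits (S : List Bool → List Bool) : ℕ → List Bool → Bool
  | i, true :: z => bits S (i + 1) z
  | i, false :: true :: q => (S q).getD i false
  | i, false :: false :: q => decide (i < (S q).length)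
  | _, [] => false
  | _, [false] => false

/-- Turing reducibility of the search problem `V` to the search problem `V'` relative to `R`: one
oracle procedure with polynomial-time step function finds for every instance `x` of `V` a solution,
given `R` and the bits of any function `S` which solves `V'` as oracles, within polynomially many
rounds. -/
def SearchTuringReducibleRel (R : List Bool → Bool) (V V' : List Bool × List Bool → Bool) : Prop :=
  ∃ (g : List Bool × List Bool → Bool × List Bool) (p : Polynomial ℕ), IsPolyTime g ∧
    ∀ S : List Bool → List Bool, (∀ q, V' (q, S q) = true) → ∀ x, ∃ y,
      orun g (join R (bits S 0)) x (p.eval x.length) [] = some y ∧ V (x, y) = true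

end Pool.Agent.S1
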