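import Mathlib

/-!
# Uniform probability on finite types
-/

set_option autoImplicit false

open Finset

noncomputable section

namespace Pool.Agent.S1

open Classical in
/-- Indicator. -/
def ind (p : Prop) : ℝ := if p then 1 else 0

lemma ind_true {p : Prop} (h : p) : ind p = 1 := if_pos h
lemma ind_false {p : Prop} (h : ¬ p) : ind p = 0 := if_neg h

lemma ind_nonneg (p : Prop) : 0 ≤ ind p := by
  by_cases h : p
  · rw [ind_true h]; norm_num
  · rw [ind_false h]

lemma ind_le_one (p : Prop) : ind p ≤ 1 := by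
  by_cases h : p
  · rw [ind_true h]
  · rw [ind_false h]; norm_num

lemma ind_mono {p q : Prop} (h : p → q) : ind p ≤ ind q := by
  by_cases hp : p
  · rw [ind_true hp, ind_true (h hp)]
  · rw [ind_false hp]; exact ind_nonneg q

/-- Probability of `p` for the uniform distribution. -/
def pr {Ω : Type} [Fintype Ω] (p : Ω → Prop) : ℝ :=
  (∑ ω, ind (p ω)) / (Fintype.card Ω : ℝ)

variable {Ω : Type} [Fintype Ω]

lemma pr_nonneg (p : Ω → Prop) : 0 ≤ pr p :=
  div_nonneg (sum_nonneg fun _ _ => ind_nonneg _) (Nat.cast_nonneg _)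

lemma pr_mono {p q : Ω → Prop} (h : ∀ ω, p ω → q ω) : pr p ≤ pr q :=
  div_le_div_of_nonneg_right (sum_le_sum fun ω _ => ind_mono (h ω)) (Nat.cast_nonneg _)

lemma pr_or (p q : Ω → Prop) : pr (fun ω => p ω ∨ q ω) ≤ pr p + pr q := by
  unfold pr
  rw [← add_div, ← sum_add_distrib]
  refine div_le_div_of_nonneg_right (sum_le_sum fun ω _ => ?_) (Nat.cast_nonneg _)
  by_cases h1 : p ω
  · rw [ind_true (Or.inl h1), ind_true h1]
    have := ind_nonneg (q ω)
    linarith
  · by_cases h2 : q ω
    · rw [ind_true (Or.inr h2), ind_true h2]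
      have := ind_nonneg (p ω)
      linarith
    · rw [ind_false (by tauto)]
      have := ind_nonneg (p ω)
      have := ind_nonneg (q ω)
      linarith

lemma pr_false : pr (fun _ : Ω => False) = 0 := by
  unfold pr
  rw [sum_congr rfl (fun ω _ => ind_false (not_false)), sum_const_zero, zero_div]

lemma pr_exists {α : Type} (s : Finset α) (p : α → Ω → Prop) :
    pr (fun ω => ∃ a ∈ s, p a ω) ≤ ∑ a ∈ s, pr (p a) := by
  unfold pr
  rw [← sum_div, sum_comm]
  refine div_le_div_of_nonneg_right (sum_le_sum fun ω _ => ?_) (Nat.cast_nonneg _)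
  by_cases h : ∃ a ∈ s, p a ω
  · obtain ⟨a, ha, hp⟩ := h
    rw [ind_true ⟨a, ha, hp⟩, ← ind_true hp]
    exact single_le_sum (f := fun a => ind (p a ω)) (fun b _ => ind_nonneg _) ha
  · rw [ind_false h]
    exact sum_nonneg fun b _ => ind_nonneg _

lemma pr_exists_le {α : Type} (s : Finset α) (p : α → Ω → Prop) {c : ℝ}
    (h : ∀ a ∈ s, pr (p a) ≤ c) : pr (fun ω => ∃ a ∈ s, p a ω) ≤ s.card * c := by
  refine (pr_exists s p).trans ((sum_le_sum h).trans ?_)
  rw [sum_const, nsmul_eq_mul]

lemma exists_not_of_pr_lt [Nonempty Ω] {p : Ω → Prop} (h : pr p < 1) : ∃ ω, ¬ p ω := by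
  by_contra hc
  push Not at hc
  have hN : (Fintype.card Ω : ℝ) ≠ 0 := by exact_mod_cast Fintype.card_ne_zero
  have h1 : pr p = 1 := by
    unfold pr
    rw [sum_congr rfl (fun ω _ => ind_true (hc ω)), sum_const, card_univ, nsmul_eq_mul, mul_one]
    exact div_self hN
  linarith

/-- A bit is predicted with probability at least `1/2`. -/
lemma exists_majority [Nonempty Ω] (X : Ω → Bool) : ∃ b, pr (fun ω => X ω ≠ b) ≤ 1 / 2 := by
  have hN : (Fintype.card Ω : ℝ) ≠ 0 := by exact_mod_cast Fintype.card_ne_zero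
  have h1 : pr (fun ω => X ω ≠ false) + pr (fun ω => X ω ≠ true) = 1 := by
    unfold pr
    rw [← add_div, ← sum_add_distrib]
    have : ∀ ω ∈ (univ : Finset Ω), ind (X ω ≠ false) + ind (X ω ≠ true) = 1 := by
      intro ω _
      rcases h : X ω with _ | _
      · rw [ind_false (by simp), ind_true (by simp)]; norm_num
      · rw [ind_true (by simp), ind_false (by simp)]; norm_num
    rw [sum_congr rfl this, sum_const, card_univ, nsmul_eq_mul, mul_one]
    exact div_self hN
  by_contra hc
  push Not at hc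
  have h2 := hc false
  have h3 := hc true
  linarith

/-- Resampling of one coordinate. -/
lemma pr_fiber [Nonempty Ω] {ι : Type} [Fintype ι] [DecidableEq ι] (i : ι)
    (p : (ι → Ω) → Prop) {c : ℝ} (h : ∀ f, pr (fun b => p (Function.update f i b)) ≤ c) :
    pr p ≤ c := by
  have hN : (0 : ℝ) < Fintype.card Ω := by exact_mod_cast Fintype.card_pos
  have hN' : (0 : ℝ) < Fintype.card (ι → Ω) := by exact_mod_cast Fintype.card_pos
  set F : (ι → Ω) → ℝ := fun f => ind (p f) with hF
  have hinv : Function.Involutive (fun x : (ι → Ω) × Ω => (Function.update x.1 i x.2, x.1 i)) := by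
    rintro ⟨f, b⟩
    simp
  have h1 : ∑ x : (ι → Ω) × Ω, F (Function.update x.1 i x.2) = ∑ x : (ι → Ω) × Ω, F x.1 :=
    Equiv.sum_comp (hinv.toPerm) (fun x : (ι → Ω) × Ω => F x.1)
  have h2 : ∑ x : (ι → Ω) × Ω, F x.1 = (∑ f, F f) * Fintype.card Ω := by
    rw [Fintype.sum_prod_type]
    simp only [sum_const, card_univ, nsmul_eq_mul]
    rw [← mul_sum]
    ring
  have h3 : ∑ x : (ι → Ω) × Ω, F (Function.update x.1 i x.2) ≤
      Fintype.card (ι → Ω) * (c * Fintype.card Ω) := by
    rw [Fintype.sum_prod_type]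
    have : ∀ f : ι → Ω, ∑ b, F (Function.update f i b) ≤ c * Fintype.card Ω := by
      intro f
      have := h f
      unfold pr at this
      rwa [div_le_iff₀ hN] at this
    refine (sum_le_sum fun f _ => this f).trans ?_
    rw [sum_const, card_univ, nsmul_eq_mul]
  rw [h1, h2] at h3
  unfold pr
  rw [div_le_iff₀ hN']
  have h4 : (∑ f, F f) * Fintype.card Ω ≤ (c * Fintype.card (ι → Ω)) * Fintype.card Ω := by
    linarith
  exact le_of_mul_le_mul_right h4 hN

/-- An event on one coordinate. -/
lemma pr_coord [Nonempty Ω] {ι : Type} [Fintype ι] [DecidableEq ι] (i : ι)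
    (q : Ω → Prop) {c : ℝ} (h : pr q ≤ c) : pr (fun f : ι → Ω => q (f i)) ≤ c := by
  refine pr_fiber i _ fun f => ?_
  simpa using h

/-- The same event on all coordinates. -/
lemma pr_all {ι : Type} [Fintype ι] [DecidableEq ι] (q : Ω → Prop) :
    pr (fun f : ι → Ω => ∀ i, q (f i)) = pr q ^ Fintype.card ι := by
  classical
  unfold pr
  rw [div_pow]
  congr 1
  · have h1 : ∀ f ∈ (univ : Finset (ι → Ω)), ind (∀ i, q (f i)) = ∏ i, ind (q (f i)) := by
      intro f _
      by_cases h : ∀ i, q (f i)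
      · rw [ind_true h, prod_congr rfl (fun i _ => ind_true (h i)), prod_const_one]
      · rw [ind_false h]
        push Not at h
        obtain ⟨i, hi⟩ := h
        exact (prod_eq_zero (mem_univ i) (ind_false hi)).symm
    rw [sum_congr rfl h1]
    have h2 := Finset.prod_univ_sum (fun _ : ι => (univ : Finset Ω)) (fun _ ω => ind (q ω))
    rw [Fintype.piFinset_univ] at h2
    rw [← h2, prod_const, card_univ]
  · rw [Fintype.card_fun]
    push_cast
    rfl

end Pool.Agent.S1
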