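import Pool.Agent.Work.MP_46935e_lc.S1.Amp
import Pool.Agent.Work.MP_46935e_lc.S1.Pr

/-!
# Amplification of predictability: probabilities
-/

set_option autoImplicit false

open Finset

noncomputable section

namespace Pool.Agent.S1

namespace Sys

variable (S : Sys)

/-- The default world `d` and the random legal world `Wf` are good up to the length `2 ^ j`. -/
structure Good (n : ℕ) (A : ℝ) (j : ℕ) (d : World) {Ω : Type} [Fintype Ω] (Wf : Ω → World) :
    Prop where
  legal : ∀ ω, S.Legal (Wf ω)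
  dO : ∀ z, S.isO z → d z = false
  dfix : ∀ z, ¬ S.isO z → ¬ S.isZ z → d z = S.v z
  dval : ∀ z, S.isZ z → z.length < 2 ^ j → ∀ b, S.cert z b d → S.cert z (d z) d
  dev : ∀ z, (S.isO z ∨ S.isZ z ∧ z.length < 2 ^ j) →
    pr (fun ω => Wf ω z ≠ d z) ≤ (A + 1) ^ j * (1 / 2) ^ n

/-- The constant of the amplification up to the level `J`. -/
def amC (n J : ℕ) : ℝ := 2 ^ J * (2 ^ (J ^ 2) + 1) * (n : ℝ) ^ 2

lemma amC_nonneg (n J : ℕ) : 0 ≤ amC n J := by unfold amC; positivity

theorem step (hT : S.Total) {n J j : ℕ} (hn : 1 ≤ n) (hj : j < J) {d : World} {Ω : Type}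
    [Fintype Ω] [Nonempty Ω] {Wf : Ω → World} (h : S.Good n (amC n J) j d Wf) :
    ∃ (d' : World) (Wf' : (Fin n → Ω) → World), S.Good n (amC n J) (j + 1) d' Wf' := by
  classical
  have : Nonempty (Fin n) := ⟨⟨0, hn⟩⟩
  set A : ℝ := amC n J with hA
  set δ : ℝ := (A + 1) ^ j * (1 / 2) ^ n with hδ
  have hA0 : 0 ≤ A := amC_nonneg n J
  have hδ0 : 0 ≤ δ := by rw [hδ]; positivity
  -- the new default values
  choose maj hmaj using fun z : Str => exists_majority (fun ω => Wf ω z)
  set d' : World := fun z => if z.length < 2 ^ j ∨ ¬ S.isZ z then d z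
    else if S.cert z true d then true else if S.cert z false d then false else maj z with hd'
  have hd1 : ∀ z : Str, z.length < 2 ^ j → d' z = d z := by
    intro z hz
    rw [hd']
    simp only [if_pos (Or.inl hz)]
  have hd2 : ∀ z : Str, ¬ S.isZ z → d' z = d z := by
    intro z hz
    rw [hd']
    simp only [if_pos (Or.inr hz)]
  -- the new worlds
  choose Wf' hleg hWO hW1 hW2 hW3 using fun f : Fin n → Ω =>
    S.combine hT (fun i => Wf (f i)) (fun i => h.legal (f i)) d d' (2 ^ j)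
  -- closed sets
  have hcl : ∀ (ω : Ω) (z : Str), ∃ π : Finset Str, S.isZ z → z.length < 2 ^ (j + 1) →
      π.card ≤ 2 ^ (J ^ 2) ∧ (∀ q ∈ π, q.length < 2 ^ j) ∧ S.Closed (Wf ω) π ∧
      ∀ W' : World, (∀ q ∈ π, W' q = Wf ω q) → S.cert z (Wf ω z) W' := by
    intro ω z
    by_cases hz : S.isZ z ∧ z.length < 2 ^ (j + 1)
    · obtain ⟨π, h1, h2, h3, h4⟩ := S.exists_closed (h.legal ω).val (j + 1) z hz.1 hz.2
      refine ⟨π, fun _ _ => ⟨h1.trans (Nat.pow_le_pow_right (by norm_num)
        (Nat.pow_le_pow_left hj 2)), fun q hq => ?_, h3, h4⟩⟩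
      have h5 := h2 q hq
      have h6 := hz.2
      rw [pow_succ] at h6
      omega
    · exact ⟨∅, fun h1 h2 => absurd ⟨h1, h2⟩ hz⟩
  choose π hπ using hcl
  -- the event that the certificate of `z` in the `i`-th world is destroyed
  set Bad : Fin n → Str → (Fin n → Ω) → Prop := fun i z f =>
    ∃ i' ∈ (univ.erase i : Finset (Fin n)), ∃ q ∈ (π (f i) z).filter (fun q => S.isO q ∨ S.isZ q ∧
      q.length < 2 ^ j), Wf (f i') q ≠ d q with hBad
  have hsurv : ∀ (i : Fin n) (z : Str) (f : Fin n → Ω), S.isZ z → z.length < 2 ^ (j + 1) →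
      ¬ Bad i z f → S.cert z (Wf (f i) z) (Wf' f) := by
    intro i z f hz hzl hb
    obtain ⟨-, h2, h3, h4⟩ := hπ (f i) z hz hzl
    refine h4 _ ?_
    refine S.survive (fun i => Wf (f i)) (fun i => h.legal (f i)) d h.dO (hleg f) (hWO f) (hW1 f)
      (hW2 f) i (π (f i) z) h2 h3 ?_
    intro i' hi' q hq hqq
    by_contra hne
    refine hb ⟨i', mem_erase.2 ⟨hi', mem_univ _⟩, q, mem_filter.2 ⟨hq, ?_⟩, hne⟩
    rcases hqq with h5 | h5
    · exact Or.inl h5
    · exact Or.inr ⟨h5, h2 q hq⟩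
  have hbad : ∀ (i : Fin n) (z : Str), S.isZ z → z.length < 2 ^ (j + 1) →
      pr (Bad i z) ≤ n * (2 ^ (J ^ 2) * δ) := by
    intro i z hz hzl
    have h1 : pr (Bad i z) ≤ ((univ.erase i : Finset (Fin n)).card : ℝ) * (2 ^ (J ^ 2) * δ) := by
      refine pr_exists_le _ _ fun i' hi' => ?_
      refine pr_fiber i' _ fun f => ?_
      have hii : i ≠ i' := (mem_erase.1 hi').1.symm
      simp only [Function.update_self, Function.update_of_ne hii]
      refine (pr_exists_le _ (fun q b => Wf b q ≠ d q) (c := δ) fun q hq => ?_).trans ?_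
      · exact h.dev q (mem_filter.1 hq).2
      · refine mul_le_mul_of_nonneg_right ?_ hδ0
        have h2 := (hπ (f i) z hz hzl).1
        have h3 : ((π (f i) z).filter (fun q => S.isO q ∨ S.isZ q ∧ q.length < 2 ^ j)).card ≤
            2 ^ (J ^ 2) := (card_filter_le _ _).trans h2
        exact_mod_cast h3
    refine h1.trans (mul_le_mul_of_nonneg_right ?_ (by positivity))
    have h2 : (univ.erase i : Finset (Fin n)).card ≤ n := by
      refine (card_le_card (erase_subset _ _)).trans ?_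
      rw [card_univ, Fintype.card_fin]
    exact_mod_cast h2
  have hn1 : (1 : ℝ) ≤ n := by exact_mod_cast hn
  have hJ1 : (1 : ℝ) ≤ 2 ^ J := one_le_pow₀ (by norm_num)
  -- deviations at old strings
  have hdevO : ∀ z, S.isO z → pr (fun f => Wf' f z ≠ d z) ≤ n * δ := by
    intro z hz
    have h1 : pr (fun f => Wf' f z ≠ d z) ≤
        pr (fun f : Fin n → Ω => ∃ i ∈ (univ : Finset (Fin n)), Wf (f i) z ≠ d z) := by
      refine pr_mono fun f hf => ?_
      rw [h.dO z hz] at hf ⊢
      have h2 : Wf' f z = true := by simpa using hf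
      obtain ⟨i, hi⟩ := (hWO f z hz).1 h2
      exact ⟨i, mem_univ i, by rw [hi]; simp⟩
    refine h1.trans ((pr_exists_le univ (fun i (f : Fin n → Ω) => Wf (f i) z ≠ d z)
      fun i _ => pr_coord i _ (h.dev z (Or.inl hz))).trans ?_)
    rw [card_univ, Fintype.card_fin]
  have hdevZ : ∀ z, S.isZ z → z.length < 2 ^ j →
      pr (fun f => Wf' f z ≠ d z) ≤ (2 ^ (J ^ 2) + 1) * (n * δ) := by
    intro z hz hzl
    have hzl' : z.length < 2 ^ (j + 1) := hzl.trans (Nat.pow_lt_pow_right (by norm_num) (by omega))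
    have h1 : pr (fun f => Wf' f z ≠ d z) ≤
        pr (fun f : Fin n → Ω => (∃ i ∈ (univ : Finset (Fin n)), Wf (f i) z ≠ d z) ∨
          Bad ⟨0, hn⟩ z f) := by
      refine pr_mono fun f hf => ?_
      by_contra hc
      push Not at hc
      obtain ⟨hc1, hc2⟩ := hc
      have h2 := hsurv ⟨0, hn⟩ z f hz hzl' hc2
      rw [hc1 ⟨0, hn⟩ (mem_univ _)] at h2
      exact hf (hW2 f z hz hzl (fun i => hc1 i (mem_univ i)) h2)
    refine h1.trans ((pr_or _ _).trans ?_)
    have h2 : pr (fun f : Fin n → Ω => ∃ i ∈ (univ : Finset (Fin n)), Wf (f i) z ≠ d z) ≤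
        n * δ := by
      refine (pr_exists_le univ (fun i (f : Fin n → Ω) => Wf (f i) z ≠ d z)
        fun i _ => pr_coord i _ (h.dev z (Or.inr ⟨hz, hzl⟩))).trans ?_
      rw [card_univ, Fintype.card_fin]
    have h3 := hbad ⟨0, hn⟩ z hz hzl'
    calc _ ≤ n * δ + n * (2 ^ (J ^ 2) * δ) := add_le_add h2 h3
      _ = (2 ^ (J ^ 2) + 1) * (n * δ) := by ring
  have hold : ∀ z, (S.isO z ∨ S.isZ z ∧ z.length < 2 ^ j) →
      pr (fun f => Wf' f z ≠ d z) ≤ (2 ^ (J ^ 2) + 1) * (n * δ) := by
    intro z hz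
    rcases hz with hz | hz
    · refine (hdevO z hz).trans (le_mul_of_one_le_left (by positivity) ?_)
      have : (0 : ℝ) ≤ 2 ^ (J ^ 2) := by positivity
      linarith
    · exact hdevZ z hz.1 hz.2
  have hcert : ∀ z b, S.isZ z → z.length < 2 ^ (j + 1) → (S.cert z b d' ↔ S.cert z b d) := by
    intro z b hz hzl
    have hlt : ∀ q : Str, q.length ≤ z.length / 2 → q.length < 2 ^ j := by
      intro q hq
      rw [pow_succ] at hzl
      omega
    constructor
    · intro hc
      obtain ⟨Q, -, hQ2, hQ3⟩ := S.loc z b d' hz hc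
      exact hQ3 d fun q hq => (hd1 q (hlt q (hQ2 q hq))).symm
    · intro hc
      obtain ⟨Q, -, hQ2, hQ3⟩ := S.loc z b d hz hc
      exact hQ3 d' fun q hq => hd1 q (hlt q (hQ2 q hq))
  -- bound of the new error
  have hstep : (1 / 2 : ℝ) ^ n + A * δ ≤ (A + 1) ^ (j + 1) * (1 / 2) ^ n := by
    have h1 : (1 : ℝ) ≤ (A + 1) ^ j := one_le_pow₀ (by linarith)
    have h2 : (0 : ℝ) ≤ (1 / 2) ^ n := by positivity
    calc (1 / 2 : ℝ) ^ n + A * δ ≤ (A + 1) ^ j * (1 / 2) ^ n + A * δ :=
          add_le_add (le_mul_of_one_le_left h2 h1) le_rfl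
      _ = (A + 1) ^ (j + 1) * (1 / 2) ^ n := by rw [hδ, pow_succ]; ring
  have hoA : (2 ^ (J ^ 2) + 1) * (n * δ) ≤ A * δ := by
    rw [hA]
    unfold amC
    have : (2 ^ (J ^ 2) + 1 : ℝ) * (n * δ) * 1 ≤ (2 ^ (J ^ 2) + 1 : ℝ) * (n * δ) * (2 ^ J * n) :=
      mul_le_mul_of_nonneg_left (by nlinarith) (by positivity)
    calc (2 ^ (J ^ 2) + 1 : ℝ) * (n * δ) = (2 ^ (J ^ 2) + 1 : ℝ) * (n * δ) * 1 := by ring
      _ ≤ _ := this
      _ = _ := by ring
  have hp0 : (0 : ℝ) ≤ (1 / 2) ^ n := by positivity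
  refine ⟨d', Wf', hleg, ?_, ?_, ?_, ?_⟩
  · intro z hz
    rw [hd2 z (S.oz z hz), h.dO z hz]
  · intro z hz hz'
    rw [hd2 z hz', h.dfix z hz hz']
  · intro z hz hzl b hb
    rw [hcert z _ hz hzl] at hb ⊢
    by_cases hlj : z.length < 2 ^ j
    · rw [hd1 z hlj]
      exact h.dval z hz hlj b hb
    · have hnd : ¬ (z.length < 2 ^ j ∨ ¬ S.isZ z) := by
        push Not
        exact ⟨not_lt.1 hlj, hz⟩
      rw [hd']
      simp only [if_neg hnd]
      split_ifs with c1 c2
      · exact c1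
      · exact c2
      · rcases b with _ | _
        · exact absurd hb c2
        · exact absurd hb c1
  · intro z hz
    by_cases hzo : S.isO z ∨ S.isZ z ∧ z.length < 2 ^ j
    · have hdz : d' z = d z := by
        rcases hzo with h1 | h1
        · exact hd2 z (S.oz z h1)
        · exact hd1 z h1.2
      rw [hdz]
      have := hold z hzo
      linarith
    · have hzZ : S.isZ z ∧ z.length < 2 ^ (j + 1) := by
        rcases hz with h1 | h1
        · exact absurd (Or.inl h1) hzo
        · exact h1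
      obtain ⟨hzZ, hzl⟩ := hzZ
      have hlj : 2 ^ j ≤ z.length := by
        by_contra hc
        exact hzo (Or.inr ⟨hzZ, not_le.1 hc⟩)
      have hnd : ¬ (z.length < 2 ^ j ∨ ¬ S.isZ z) := by
        push Not
        exact ⟨hlj, hzZ⟩
      by_cases hcd : S.cert z (d' z) d
      · -- certified by the default world
        obtain ⟨Q, hQ1, hQ2, hQ3⟩ := S.loc z _ d hzZ hcd
        have hlt : ∀ q ∈ Q, q.length < 2 ^ j := by
          intro q hq
          have := hQ2 q hq
          rw [pow_succ] at hzl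
          omega
        have h1 : pr (fun f => Wf' f z ≠ d' z) ≤ pr (fun f => ∃ q ∈ Q, Wf' f q ≠ d q) := by
          refine pr_mono fun f hf => ?_
          by_contra hc
          push Not at hc
          exact hf (hW3 f z hzZ hlj (hQ3 (Wf' f) hc))
        have h2 : pr (fun f => ∃ q ∈ Q, Wf' f q ≠ d q) ≤
            Q.card * ((2 ^ (J ^ 2) + 1) * (n * δ)) := by
          refine pr_exists_le Q (fun q f => Wf' f q ≠ d q) fun q hq => ?_
          by_cases hqq : S.isO q ∨ S.isZ q
          · refine hold q ?_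
            rcases hqq with h3 | h3
            · exact Or.inl h3
            · exact Or.inr ⟨h3, hlt q hq⟩
          · push Not at hqq
            have h3 : ∀ f, Wf' f q = d q := by
              intro f
              rw [(hleg f).fix q hqq.1 hqq.2, h.dfix q hqq.1 hqq.2]
            have h4 : pr (fun f => Wf' f q ≠ d q) ≤ pr (fun _ : Fin n → Ω => False) :=
              pr_mono fun f hf => hf (h3 f)
            rw [pr_false] at h4
            exact h4.trans (by positivity)
        have h3 : (Q.card : ℝ) ≤ 2 ^ J := by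
          have h4 : Q.card ≤ 2 ^ J := by
            have h5 : 2 ^ (j + 1) ≤ 2 ^ J := Nat.pow_le_pow_right (by norm_num) hj
            omega
          exact_mod_cast h4
        have h4 : (Q.card : ℝ) * ((2 ^ (J ^ 2) + 1) * (n * δ)) ≤ A * δ := by
          have h5 : (Q.card : ℝ) * ((2 ^ (J ^ 2) + 1) * (n * δ)) ≤
              2 ^ J * ((2 ^ (J ^ 2) + 1) * (n * δ)) :=
            mul_le_mul_of_nonneg_right h3 (by positivity)
          refine h5.trans ?_
          rw [hA]
          unfold amC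
          have h6 : (2 ^ J * (2 ^ (J ^ 2) + 1) * n * δ : ℝ) * 1 ≤
              (2 ^ J * (2 ^ (J ^ 2) + 1) * n * δ : ℝ) * n :=
            mul_le_mul_of_nonneg_left hn1 (by positivity)
          calc (2 ^ J * ((2 ^ (J ^ 2) + 1) * (n * δ)) : ℝ) =
                (2 ^ J * (2 ^ (J ^ 2) + 1) * n * δ : ℝ) * 1 := by ring
            _ ≤ _ := h6
            _ = _ := by ring
        linarith
      · -- the majority value
        have hdz : d' z = maj z := by
          rw [hd'] at hcd ⊢
          simp only [if_neg hnd] at hcd ⊢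
          split_ifs at hcd ⊢ with c1 c2
          · exact absurd c1 hcd
          · exact absurd c2 hcd
          · rfl
        have h1 : pr (fun f => Wf' f z ≠ d' z) ≤
            pr (fun f : Fin n → Ω => (∀ i, Wf (f i) z ≠ maj z) ∨
              ∃ i ∈ (univ : Finset (Fin n)), Bad i z f) := by
          refine pr_mono fun f hf => ?_
          by_contra hc
          push Not at hc
          obtain ⟨⟨i, hi⟩, hc2⟩ := hc
          have h2 := hsurv i z f hzZ hzl (hc2 i (mem_univ i))
          rw [hi, ← hdz] at h2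
          exact hf (hW3 f z hzZ hlj h2)
        have h2 : pr (fun f : Fin n → Ω => ∀ i, Wf (f i) z ≠ maj z) ≤ (1 / 2) ^ n := by
          rw [pr_all (fun ω => Wf ω z ≠ maj z), Fintype.card_fin]
          exact pow_le_pow_left₀ (pr_nonneg _) (hmaj z) n
        have h3 : pr (fun f : Fin n → Ω => ∃ i ∈ (univ : Finset (Fin n)), Bad i z f) ≤
            n * (n * (2 ^ (J ^ 2) * δ)) := by
          refine (pr_exists_le univ (fun i f => Bad i z f) fun i _ => hbad i z hzZ hzl).trans ?_
          rw [card_univ, Fintype.card_fin]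
        have h4 : (n : ℝ) * (n * (2 ^ (J ^ 2) * δ)) ≤ A * δ := by
          rw [hA]
          unfold amC
          have h6 : (2 ^ (J ^ 2) * n ^ 2 * δ : ℝ) * 1 ≤ (2 ^ (J ^ 2) * n ^ 2 * δ : ℝ) * 2 ^ J :=
            mul_le_mul_of_nonneg_left hJ1 (by positivity)
          have h7 : (0 : ℝ) ≤ 2 ^ J * n ^ 2 * δ := by positivity
          nlinarith
        have h5 := pr_or (fun f : Fin n → Ω => ∀ i, Wf (f i) z ≠ maj z)
          (fun f => ∃ i ∈ (univ : Finset (Fin n)), Bad i z f)
        linarith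

/-- The result of the amplification. -/
theorem amplify (hT : S.Total) {n : ℕ} (hn : 1 ≤ n) (J : ℕ) {Ω : Type} [Fintype Ω] [Nonempty Ω]
    {Wf : Ω → World} {d : World} (h0 : S.Good n (amC n J) 0 d Wf) :
    ∃ d' : World, (∀ z, S.isO z → d' z = false) ∧
      (∀ z, ¬ S.isO z → ¬ S.isZ z → d' z = S.v z) ∧
      (∀ z, S.isZ z → z.length < 2 ^ J → ∀ b, S.cert z b d' → S.cert z (d' z) d') ∧
      ∀ D : Finset Str, (∀ z ∈ D, S.isZ z → z.length < 2 ^ J) →
        (D.card : ℝ) * ((amC n J + 1) ^ J * (1 / 2) ^ n) < 1 →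
        ∃ W : World, S.Legal W ∧ ∀ z ∈ D, W z = d' z := by
  classical
  have key : ∀ j, j ≤ J → ∃ (d : World) (Ω : Type) (i1 : Fintype Ω) (i2 : Nonempty Ω)
      (Wf : Ω → World), @Good S n (amC n J) j d Ω i1 Wf := by
    intro j
    induction j with
    | zero => exact fun _ => ⟨d, Ω, inferInstance, inferInstance, Wf, h0⟩
    | succ j ih =>
      intro hj
      obtain ⟨d1, Ω1, i1, i2, Wf1, h1⟩ := ih (by omega)
      obtain ⟨d2, Wf2, h2⟩ := S.step hT hn (by omega) h1
      exact ⟨d2, (Fin n → Ω1), inferInstance, inferInstance, Wf2, h2⟩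
  obtain ⟨d', Ω', i1, i2, Wf', h⟩ := key J le_rfl
  refine ⟨d', h.dO, h.dfix, h.dval, fun D hD hlt => ?_⟩
  have h1 : pr (fun ω => ∃ z ∈ D, Wf' ω z ≠ d' z) ≤
      D.card * ((amC n J + 1) ^ J * (1 / 2) ^ n) := by
    refine pr_exists_le D (fun z ω => Wf' ω z ≠ d' z) fun z hz => ?_
    by_cases hzz : S.isO z ∨ S.isZ z
    · refine h.dev z ?_
      rcases hzz with h3 | h3
      · exact Or.inl h3
      · exact Or.inr ⟨h3, hD z hz h3⟩
    · push Not at hzz
      have h4 : pr (fun ω => Wf' ω z ≠ d' z) ≤ pr (fun _ : Ω' => False) :=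
        pr_mono fun ω hf => hf (by rw [(h.legal ω).fix z hzz.1 hzz.2, h.dfix z hzz.1 hzz.2])
      rw [pr_false] at h4
      have := amC_nonneg n J
      exact h4.trans (by positivity)
  obtain ⟨ω, hω⟩ := exists_not_of_pr_lt (lt_of_le_of_lt h1 hlt)
  push Not at hω
  exact ⟨Wf' ω, h.legal ω, hω⟩

end Sys

end Pool.Agent.S1
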