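import Pool.Agent.Work.MP_46935e_lc.RO.Run
import Pool.Agent.Work.MP_46935e_lc.S1.Step

/-!
# The numerical condition
-/

set_option autoImplicit false

noncomputable section

namespace Pool.Agent.S1

open Pool.Agent.RO Filter

/-- The logarithm of a polynomial is small. -/
theorem log_small (P : Polynomial ℕ) : ∀ᶠ n in atTop, 7 * (Nat.log 2 (P.eval n) + 1) ^ 4 ≤ n := by
  have h1 : SubExp (fun m => 2 * P.eval (7 * m ^ 4) + 1) :=
    ((SubExp.const 2).mul ((((SubExp.const 7).mul (SubExp.id.pow 4))).eval P)).add (SubExp.const 1)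
  obtain ⟨m₀, hm⟩ := eventually_atTop.1 (h1 1)
  filter_upwards [eventually_ge_atTop (7 * (m₀ + 1) ^ 4)] with n hn
  by_contra hc
  push Not at hc
  set J := Nat.log 2 (P.eval n) + 1 with hJ
  have h2 : m₀ + 1 < J := by
    by_contra h3
    push Not at h3
    have := Nat.pow_le_pow_left h3 4
    omega
  have h3 : (2 * P.eval (7 * J ^ 4) + 1) ^ 1 ≤ 2 ^ J := hm J (by omega)
  rw [pow_one] at h3
  have h4 : P.eval n ≤ P.eval (7 * J ^ 4) := eval_mono P hc.le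
  have h5 : P.eval n ≠ 0 := by
    intro h0
    rw [h0, Nat.log_zero_right] at hJ
    omega
  have h6 : 2 ^ J ≤ 2 * P.eval n := by
    rw [hJ, pow_succ, mul_comm]
    exact Nat.mul_le_mul_left 2 (Nat.pow_log_le_self 2 h5)
  omega

/-- The numerical condition. -/
theorem size_aux {n N J : ℕ} (hJ1 : 1 ≤ J) (hnN : n ≤ N) (h1 : N < 2 ^ J) (hn : 7 * J ^ 4 ≤ n) :
    (N : ℝ) * ((Sys.amC n J + 1) ^ J * (1 / 2) ^ n) < 1 := by
  have h2 : (n : ℝ) ≤ 2 ^ J := by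
    have : n ≤ 2 ^ J := hnN.trans h1.le
    exact_mod_cast this
  have h3 : Sys.amC n J + 1 ≤ 2 ^ (J ^ 2 + 3 * J + 2) := by
    unfold Sys.amC
    have e1 : (n : ℝ) ^ 2 ≤ (2 ^ J) ^ 2 := pow_le_pow_left₀ (Nat.cast_nonneg _) h2 2
    have e2 : (1 : ℝ) ≤ 2 ^ J := one_le_pow₀ (by norm_num)
    have e3 : (1 : ℝ) ≤ 2 ^ (J ^ 2) := one_le_pow₀ (by norm_num)
    have e4 : (2 : ℝ) ^ (J ^ 2 + 3 * J + 2) = 2 ^ J * (2 ^ (J ^ 2) * 4) * (2 ^ J) ^ 2 := by
      have e7 : J ^ 2 + 3 * J + 2 = J + (J ^ 2 + 2) + J * 2 := by ring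
      rw [e7, pow_add, pow_add, pow_add, pow_mul]
      norm_num
    rw [e4]
    have e5 : (2 : ℝ) ^ J * (2 ^ (J ^ 2) + 1) * (n : ℝ) ^ 2 ≤
        2 ^ J * (2 ^ (J ^ 2) * 2) * (2 ^ J) ^ 2 := by
      refine mul_le_mul (mul_le_mul_of_nonneg_left (by linarith) (by positivity)) e1
        (by positivity) (by positivity)
    have e6 : (1 : ℝ) ≤ 2 ^ J * (2 ^ (J ^ 2) * 2) * (2 ^ J) ^ 2 := by
      have : (1 : ℝ) * (1 * 2) * 1 ^ 2 ≤ 2 ^ J * (2 ^ (J ^ 2) * 2) * (2 ^ J) ^ 2 := by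
        refine mul_le_mul (mul_le_mul e2 ?_ (by norm_num) (by positivity)) ?_ (by norm_num)
          (by positivity)
        · linarith
        · exact pow_le_pow_left₀ (by norm_num) e2 2
      linarith
    linarith
  have h4 : (Sys.amC n J + 1) ^ J ≤ 2 ^ (6 * J ^ 4) := by
    calc (Sys.amC n J + 1) ^ J ≤ (2 ^ (J ^ 2 + 3 * J + 2)) ^ J :=
          pow_le_pow_left₀ (by have := Sys.amC_nonneg n J; linarith) h3 J
      _ = 2 ^ ((J ^ 2 + 3 * J + 2) * J) := by rw [← pow_mul]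
      _ ≤ 2 ^ (6 * J ^ 4) := by
          refine pow_le_pow_right₀ (by norm_num) ?_
          have a1 : J ≤ J ^ 2 := by nlinarith
          have a2 : J ^ 2 ≤ J ^ 3 := Nat.pow_le_pow_right hJ1 (by norm_num)
          have a3 : J ^ 3 ≤ J ^ 4 := Nat.pow_le_pow_right hJ1 (by norm_num)
          nlinarith
  have h5 : (N : ℝ) < 2 ^ J := by exact_mod_cast h1
  have h6 : (N : ℝ) * (Sys.amC n J + 1) ^ J < 2 ^ n := by
    calc (N : ℝ) * (Sys.amC n J + 1) ^ J ≤ N * 2 ^ (6 * J ^ 4) :=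
          mul_le_mul_of_nonneg_left h4 (Nat.cast_nonneg _)
      _ < 2 ^ J * 2 ^ (6 * J ^ 4) := mul_lt_mul_of_pos_right h5 (by positivity)
      _ = 2 ^ (J + 6 * J ^ 4) := by rw [pow_add]
      _ ≤ 2 ^ n := by
          refine pow_le_pow_right₀ (by norm_num) ?_
          have a1 : J ≤ J ^ 4 := by
            calc J = J ^ 1 := (pow_one J).symm
              _ ≤ J ^ 4 := Nat.pow_le_pow_right hJ1 (by norm_num)
          omega
  rw [← mul_assoc, one_div, inv_pow, ← div_eq_mul_inv, div_lt_one (by positivity)]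
  exact h6

theorem size_small (P : Polynomial ℕ) (hP : ∀ n, n ≤ P.eval n) :
    ∀ᶠ n in atTop, ∃ J, P.eval n < 2 ^ J ∧
      ((P.eval n : ℕ) : ℝ) * ((Sys.amC n J + 1) ^ J * (1 / 2) ^ n) < 1 := by
  filter_upwards [log_small P] with n hn
  have h1 : P.eval n < 2 ^ (Nat.log 2 (P.eval n) + 1) :=
    Nat.lt_pow_succ_log_self (by norm_num) _
  exact ⟨_, h1, size_aux (by omega) (hP n) h1 hn⟩

end Pool.Agent.S1
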