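import Pool.Agent.Work.MP_46935e_lc.RO.Acc
import Pool.Agent.Work.MP_46935e_lc.RO.Countable
import Pool.Agent.Work.MP_46935e_lc.S1.Defs
import Pool.Agent.Work.MP_46935e_lc.S1.Size

/-!
# Machines: solutions, reductions, locality
-/

set_option autoImplicit false

noncomputable section

namespace Pool.Agent.S1

open Pool.Agent.RO Pool.Agent.PT Pool.Agent.Work.MP_46935e_lc

/-! ### Solutions -/

/-- `w` is a solution of the instance `x`. -/
def vsol (d : VD) (x w : Str) (W : World) : Prop :=
  w.length ≤ d.p.eval x.length ∧
    orun d.g W (x, w) (d.q.eval (N487b59b3.bitEncode (x, w)).length) [] = some [true]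

lemma vsol_cert (d : VD) {W : World} {n : ℕ} {x w : Str} (hx : x.length ≤ n)
    (h : vsol d x w W) : ∃ Q : Finset Str, Q.card ≤ d.rb n ∧ (∀ q ∈ Q, q.length ≤ d.ub n) ∧
      ∀ W' : World, (∀ q ∈ Q, W' q = W q) → vsol d x w W' := by
  classical
  obtain ⟨hw, hr⟩ := h
  refine ⟨(oqs d.g W (x, w) (d.q.eval (N487b59b3.bitEncode (x, w)).length) []).toFinset,
    ((List.toFinset_card_le _).trans (length_oqs _ _ _ _ _)).trans (d.rounds_le hx hw),
    fun q hq => d.query_le hx hw W q (List.mem_toFinset.1 hq), fun W' hW' => ⟨hw, ?_⟩⟩
  rw [(orun_congr d.g (x, w) _ [] (fun q hq => (hW' q (List.mem_toFinset.2 hq)).symm)).1]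
  exact hr

/-- Polynomial bound for the number of rounds. -/
def rbP (d : VD) : Polynomial ℕ :=
  d.q.comp (6 * Polynomial.X + 3 * d.p + 1)

lemma rbP_eval (d : VD) (n : ℕ) : (rbP d).eval n = d.rb n := by
  simp [rbP, VD.rb]

/-- Polynomial bound for the length of the queries. -/
def ubP (d : VD) : Polynomial ℕ :=
  (4 * Polynomial.X + 4 * d.p + 3 + 4 * rbP d + 5) ^ d.k

lemma ubP_eval (d : VD) (n : ℕ) : (ubP d).eval n = d.ub n := by
  simp [ubP, VD.ub, qlen, rbP_eval]

/-- Polynomial bound for certificates. -/
def pb (d : VD) : Polynomial ℕ := rbP d + ubP d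

lemma pb_eval (d : VD) (n : ℕ) : (pb d).eval n = d.rb n + d.ub n := by
  rw [pb, Polynomial.eval_add, rbP_eval, ubP_eval]

/-! ### Outputs -/

lemma exists_outlen {α : Type} [Enc α] {g : α × List Bool → Bool × List Bool} (hg : PTF g) :
    ∃ k, ∀ (O : List Bool → Bool) (x : α) (t : ℕ) (y : List Bool),
      orun g O x t [] = some y → y.length ≤ qlen k (sz x) t := by
  obtain ⟨k, hk⟩ := hg.size
  refine ⟨k, fun O x t y => ?_⟩
  have key : ∀ (t : ℕ) (a : List Bool), orun g O x t a = some y →
      y.length ≤ qlen k (sz x) (a.length + t) := by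
    intro t
    induction t with
    | zero => intro a h; cases h
    | succ t ih =>
      intro a h
      rw [orun] at h
      split_ifs at h with hg
      · have h1 := hk (x, a)
        have h2 : (g (x, a)).2.length ≤ sz (g (x, a)) := by
          have h3 := length_le_sz (g (x, a)).2
          have h4 : sz (g (x, a)) = sz (g (x, a)).1 + sz (g (x, a)).2 + 1 := sz_pair _ _
          omega
        rw [← Option.some.inj h]
        refine h2.trans (h1.trans (Nat.pow_le_pow_left ?_ _))
        rw [sz_pair]
        have := sz_bits a
        omega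
      · have h1 := ih _ h
        rw [List.length_append, List.length_singleton] at h1
        exact h1.trans (qlen_mono k (le_refl _) (by omega))
  intro h
  have := key t [] h
  simpa using this

lemma length_unB (l : List Bool) : (unB l).length ≤ l.length := by
  have key : ∀ (l : List Bool) (s : ℕ × List Bool),
      (l.foldl ustep s).2.length ≤ s.2.length + l.length := by
    intro l
    induction l with
    | nil => intro s; simp
    | cons b l ih =>
      intro s
      rw [List.foldl_cons, List.length_cons]
      refine (ih _).trans ?_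
      have : (ustep s b).2.length ≤ s.2.length + 1 := by
        unfold ustep
        split_ifs <;> simp
      omega
  have := key l (0, [])
  simpa [unB] using this

/-! ### Solver bits -/

/-- The instance of a query to the bits of a solver. -/
def qof : Str → Str
  | true :: z => qof z
  | false :: _ :: q => q
  | _ => []

lemma length_qof (z : Str) : (qof z).length ≤ z.length := by
  induction z with
  | nil => simp [qof]
  | cons b z ih =>
    cases b with
    | true => rw [qof, List.length_cons]; omega
    | false =>
      cases z with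
      | nil => simp [qof]
      | cons c q => rw [qof, List.length_cons, List.length_cons]; omega

lemma bits_congr {S S' : Str → Str} (z : Str) (h : S (qof z) = S' (qof z)) :
    ∀ i, bits S i z = bits S' i z := by
  induction z with
  | nil => intro i; rfl
  | cons b z ih =>
    intro i
    cases b with
    | true =>
      rw [bits, bits]
      exact ih h _
    | false =>
      cases z with
      | nil => rfl
      | cons c q =>
        simp only [qof] at h
        cases c with
        | true => rw [bits, bits, h]
        | false => rw [bits, bits, h]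

/-! ### Reductions -/

/-- Reductions of search problems. -/
inductive Red : Type
  | mo (g₁ : List Bool × List Bool → Bool × List Bool) (p₁ : Polynomial ℕ)
      (h₁ : N68a2faeb.IsPolyTime g₁)
      (g₂ : (List Bool × List Bool) × List Bool → Bool × List Bool) (p₂ : Polynomial ℕ)
      (h₂ : N68a2faeb.IsPolyTime g₂) : Red
  | tu (g : List Bool × List Bool → Bool × List Bool) (p : Polynomial ℕ)
      (h : N68a2faeb.IsPolyTime g) : Red

/-- The output of a reduction, given the oracle and the solver. -/
def Red.run (r : Red) (W : World) (S : Str → Str) (x : Str) : Option Str :=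
  match r with
  | .mo g₁ p₁ _ g₂ p₂ _ =>
    (orun g₁ W x (p₁.eval (N487b59b3.bitEncode x).length) []).bind fun e =>
      (orun g₂ W (x, S (unB e))
        (p₂.eval (N487b59b3.bitEncode (x, S (unB e))).length) []).map unB
  | .tu g p _ => orun g (join W (bits S 0)) x (p.eval x.length) []

/-- Locality of the reductions. -/
def IsLoc (r : Red) (pk P : Polynomial ℕ) : Prop :=
  ∀ (W : World) (S : Str → Str), (∀ q, (S q).length ≤ pk.eval q.length) → ∀ x : Str,
    ∃ Q Q' : Finset Str, Q.card ≤ P.eval x.length ∧ (∀ z ∈ Q, z.length ≤ P.eval x.length) ∧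
      Q'.card ≤ P.eval x.length ∧ (∀ q ∈ Q', q.length ≤ P.eval x.length) ∧
      ∀ (W' : World) (S' : Str → Str), (∀ z ∈ Q, W' z = W z) → (∀ q ∈ Q', S' q = S q) →
        r.run W' S' x = r.run W S x

lemma qlen_poly (k : ℕ) (s t : Polynomial ℕ) (n : ℕ) :
    ((s + 4 * t + 5) ^ k : Polynomial ℕ).eval n = qlen k (s.eval n) (t.eval n) := by
  simp [qlen]

theorem exists_loc (r : Red) (pk : Polynomial ℕ) : ∃ P, IsLoc r pk P := by
  classical
  cases r with
  | mo g₁ p₁ h₁ g₂ p₂ h₂ =>
    obtain ⟨k₁, hk₁⟩ := exists_qlen (ptf_of_P h₁)
    obtain ⟨k₁', hk₁'⟩ := exists_outlen (ptf_of_P h₁)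
    obtain ⟨k₂, hk₂⟩ := exists_qlen (ptf_of_T h₂)
    set t₁ : Polynomial ℕ := p₁.comp (3 * Polynomial.X) with ht₁
    set L₁ : Polynomial ℕ := ((4 * Polynomial.X + 1) + 4 * t₁ + 5) ^ k₁ with hL₁
    set L₁' : Polynomial ℕ := ((4 * Polynomial.X + 1) + 4 * t₁ + 5) ^ k₁' with hL₁'
    set s : Polynomial ℕ := pk.comp L₁' with hs
    set t₂ : Polynomial ℕ := p₂.comp (6 * Polynomial.X + 3 * s + 1) with ht₂
    set L₂ : Polynomial ℕ := ((4 * Polynomial.X + 4 * s + 3) + 4 * t₂ + 5) ^ k₂ with hL₂
    refine ⟨1 + t₁ + t₂ + L₁ + L₁' + L₂, fun W S hS x => ?_⟩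
    have et₁ : p₁.eval (N487b59b3.bitEncode x).length = t₁.eval x.length := by
      rw [length_bitEncode_list, ht₁, Polynomial.eval_comp, Polynomial.eval_mul,
        Polynomial.eval_X]
      simp
    have hx := sz_bits x
    set n := x.length with hn
    have eP : (1 + t₁ + t₂ + L₁ + L₁' + L₂ : Polynomial ℕ).eval n = 1 + t₁.eval n + t₂.eval n +
        L₁.eval n + L₁'.eval n + L₂.eval n := by
      simp only [Polynomial.eval_add, Polynomial.eval_one]
    rw [eP]
    -- the first phase
    set Q₁ : Finset Str := (oqs g₁ W x (t₁.eval n) []).toFinset with hQ₁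
    have c₁ : Q₁.card ≤ t₁.eval n :=
      (List.toFinset_card_le _).trans (length_oqs _ _ _ _ _)
    have b₁ : ∀ z ∈ Q₁, z.length ≤ L₁.eval n := by
      intro z hz
      refine (hk₁ W x _ z (List.mem_toFinset.1 hz)).trans ?_
      rw [hL₁, qlen_poly]
      refine qlen_mono _ ?_ le_rfl
      simp only [Polynomial.eval_add, Polynomial.eval_mul, Polynomial.eval_X, Polynomial.eval_one,
        Polynomial.eval_ofNat]
      omega
    have r₁ : ∀ W' : World, (∀ z ∈ Q₁, W' z = W z) →
        orun g₁ W' x (t₁.eval n) [] = orun g₁ W x (t₁.eval n) [] := fun W' hW' =>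
      (orun_congr g₁ x _ [] (fun z hz => (hW' z (List.mem_toFinset.2 hz)).symm)).1
    rcases ho : orun g₁ W x (t₁.eval n) [] with _ | e
    · refine ⟨Q₁, ∅, by omega, fun z hz => (b₁ z hz).trans (by omega), by simp,
        fun q hq => absurd hq (by simp), fun W' S' hW' _ => ?_⟩
      simp only [Red.run, et₁]
      rw [r₁ W' hW', ho]
      rfl
    · have he : e.length ≤ L₁'.eval n := by
        refine (hk₁' W x _ e ho).trans ?_
        rw [hL₁', qlen_poly]
        refine qlen_mono _ ?_ le_rfl
        simp only [Polynomial.eval_add, Polynomial.eval_mul, Polynomial.eval_X,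
          Polynomial.eval_one, Polynomial.eval_ofNat]
        omega
      have hq : (unB e).length ≤ L₁'.eval n := (length_unB e).trans he
      have hSq : (S (unB e)).length ≤ s.eval n := by
        rw [hs, Polynomial.eval_comp]
        exact (hS _).trans (eval_mono pk hq)
      have ht : p₂.eval (N487b59b3.bitEncode (x, S (unB e))).length ≤ t₂.eval n := by
        rw [length_bitEncode_pair, ht₂, Polynomial.eval_comp]
        refine eval_mono p₂ ?_
        simp only [Polynomial.eval_add, Polynomial.eval_mul, Polynomial.eval_X,
          Polynomial.eval_one, Polynomial.eval_ofNat]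
        omega
      set Q₂ : Finset Str := (oqs g₂ W (x, S (unB e))
        (p₂.eval (N487b59b3.bitEncode (x, S (unB e))).length) []).toFinset with hQ₂
      have c₂ : Q₂.card ≤ t₂.eval n :=
        ((List.toFinset_card_le _).trans (length_oqs _ _ _ _ _)).trans ht
      have b₂ : ∀ z ∈ Q₂, z.length ≤ L₂.eval n := by
        intro z hz
        refine (hk₂ W _ _ z (List.mem_toFinset.1 hz)).trans ?_
        rw [hL₂, qlen_poly]
        refine qlen_mono _ ?_ ht
        rw [sz_pair]
        have := sz_bits (S (unB e))
        simp only [Polynomial.eval_add, Polynomial.eval_mul, Polynomial.eval_X,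
          Polynomial.eval_ofNat]
        omega
      refine ⟨Q₁ ∪ Q₂, {unB e}, (Finset.card_union_le _ _).trans (by omega), ?_, ?_, ?_, ?_⟩
      · intro z hz
        rcases Finset.mem_union.1 hz with h | h
        · exact (b₁ z h).trans (by omega)
        · exact (b₂ z h).trans (by omega)
      · rw [Finset.card_singleton]
        omega
      · intro q hq'
        rw [Finset.mem_singleton.1 hq']
        exact hq.trans (by omega)
      · intro W' S' hW' hS'
        simp only [Red.run, et₁]
        rw [r₁ W' (fun z hz => hW' z (Finset.mem_union_left _ hz)), ho]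
        simp only [Option.bind_some]
        rw [hS' _ (Finset.mem_singleton_self _)]
        rw [(orun_congr g₂ (x, S (unB e)) _ [] (fun z hz =>
          (hW' z (Finset.mem_union_right _ (List.mem_toFinset.2 hz))).symm)).1]
  | tu g p h =>
    obtain ⟨k, hk⟩ := exists_qlen (ptf_of_P h)
    set L : Polynomial ℕ := ((4 * Polynomial.X + 1) + 4 * p + 5) ^ k with hL
    refine ⟨p + L, fun W S _ x => ?_⟩
    have hx := sz_bits x
    set n := x.length with hn
    set l : List Str := oqs g (join W (bits S 0)) x (p.eval n) [] with hl
    have hll : l.length ≤ p.eval n := length_oqs _ _ _ _ _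
    have hb : ∀ z ∈ l, z.length ≤ L.eval n := by
      intro z hz
      refine (hk _ x _ z hz).trans ?_
      rw [hL, qlen_poly]
      refine qlen_mono _ ?_ le_rfl
      simp only [Polynomial.eval_add, Polynomial.eval_mul, Polynomial.eval_X, Polynomial.eval_one,
        Polynomial.eval_ofNat]
      omega
    have eP : (p + L : Polynomial ℕ).eval n = p.eval n + L.eval n := Polynomial.eval_add
    rw [eP]
    refine ⟨(l.map List.tail).toFinset, (l.map fun z => qof z.tail).toFinset, ?_, ?_, ?_, ?_, ?_⟩
    · refine (List.toFinset_card_le _).trans ?_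
      rw [List.length_map]
      omega
    · intro z hz
      obtain ⟨z', hz', rfl⟩ := List.mem_map.1 (List.mem_toFinset.1 hz)
      have h1 := hb z' hz'
      have h2 : z'.tail.length ≤ z'.length := by rw [List.length_tail]; omega
      omega
    · refine (List.toFinset_card_le _).trans ?_
      rw [List.length_map]
      omega
    · intro q hq
      obtain ⟨z', hz', rfl⟩ := List.mem_map.1 (List.mem_toFinset.1 hq)
      have h1 := hb z' hz'
      have h2 : z'.tail.length ≤ z'.length := by rw [List.length_tail]; omega
      have h3 := length_qof z'.tail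
      omega
    · intro W' S' hW' hS'
      simp only [Red.run]
      refine (orun_congr g x _ [] (fun z hz => ?_)).1
      have hz1 := hW' z.tail (List.mem_toFinset.2 (List.mem_map.2 ⟨z, hz, rfl⟩))
      have hz2 := hS' (qof z.tail) (List.mem_toFinset.2 (List.mem_map.2 ⟨z, hz, rfl⟩))
      cases z with
      | nil => rfl
      | cons b z =>
        cases b with
        | true => exact hz1.symm
        | false => exact bits_congr z hz2.symm 0

end Pool.Agent.S1
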