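import Pool.Agent.Work.MP_46935e_lc.S1.Diag

/-!
# The chain of conditions and the limit world
-/

set_option autoImplicit false

open Finset

noncomputable section

namespace Pool.Agent.S1

variable {D : Data}

/-- The invariant. -/
structure Inv (D : Data) (c : Cond) : Prop where
  good : Good D c
  ex : ∀ k a, c.ee k = some a → ∃ c0, Good D c0 ∧ Le c c0 ∧ c0.ee k = none ∧
    ∀ W, Full D c0 W → ∀ q, ∃ w, D.sol k q w W

lemma Inv.of_ee {c c' : Cond} (h : Inv D c) (hg : Good D c') (hle : Le c' c)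
    (he : c'.ee = c.ee) : Inv D c' := by
  refine ⟨hg, fun k a hk => ?_⟩
  rw [he] at hk
  obtain ⟨c0, h1, h2, h3, h4⟩ := h.ex k a hk
  exact ⟨c0, h1, hle.trans h2, h3, h4⟩

/-- The pair number `l` is settled. -/
def PairS (D : Data) (l : ℕ) (c : Cond) : Prop :=
  (∃ x, ∀ W, Full D c W → ∀ b, ¬ D.acc l x b W) ∨ ∃ a, c.est l = some a

/-- The search problem number `k` is settled. -/
def SolS (D : Data) (k : ℕ) (c : Cond) : Prop :=
  (∃ q, ∀ W, Full D c W → ∀ w, ¬ D.sol k q w W) ∨ ∃ a, c.ee k = some a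

/-- The reduction number `r` to the search problem number `k` is settled. -/
def RedS (D : Data) (k r : ℕ) (c : Cond) : Prop :=
  ∀ a, c.ee k = some a → ∃ n, a ≤ n ∧ ∀ W, Full D c W → D.fail k r n W

lemma PairS.mono {l : ℕ} {c c' : Cond} (hle : Le c' c) (h : PairS D l c) : PairS D l c' := by
  rcases h with ⟨x, hx⟩ | ⟨a, ha⟩
  · exact Or.inl ⟨x, fun W hW => hx W (hW.of_le hle)⟩
  · exact Or.inr ⟨a, hle.est l a ha⟩

lemma SolS.mono {k : ℕ} {c c' : Cond} (hle : Le c' c) (h : SolS D k c) : SolS D k c' := by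
  rcases h with ⟨q, hq⟩ | ⟨a, ha⟩
  · exact Or.inl ⟨q, fun W hW => hq W (hW.of_le hle)⟩
  · exact Or.inr ⟨a, hle.ee k a ha⟩

theorem next {c : Cond} (h : Inv D c) (i : ℕ) (hi : ∀ j < i, SolS D j c) :
    ∃ c', Inv D c' ∧ Le c' c ∧ PairS D i c' ∧ SolS D i c' ∧
      (SolS D (Nat.unpair i).1 c' → RedS D (Nat.unpair i).1 (Nat.unpair i).2 c' ∨
        ∃ q, ∀ W, Full D c' W → ∀ w, ¬ D.sol (Nat.unpair i).1 q w W) ∧ i < c'.m := by
  -- the pair
  obtain ⟨c1, g1, l1, e1, p1⟩ := stage_pair h.good i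
  have i1 : Inv D c1 := h.of_ee g1 l1 e1
  -- the search problem
  obtain ⟨c2, i2, l2, p2⟩ : ∃ c2, Inv D c2 ∧ Le c2 c1 ∧ SolS D i c2 := by
    by_cases hk : ∃ a, c1.ee i = some a
    · exact ⟨c1, i1, Le.refl _, Or.inr hk⟩
    · have hk' : c1.ee i = none := by
        rcases h3 : c1.ee i with _ | a
        · rfl
        · exact absurd ⟨a, h3⟩ hk
      obtain ⟨c2, g2, l2, h2⟩ := stage_sol g1 i hk'
      rcases h2 with ⟨e2, q, hq⟩ | ⟨e2, -, hs⟩
      · exact ⟨c2, i1.of_ee g2 l2 e2, l2, Or.inl ⟨q, hq⟩⟩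
      · refine ⟨c2, ⟨g2, fun k a hka => ?_⟩, l2, Or.inr ⟨c1.m, ?_⟩⟩
        · by_cases hki : k = i
          · subst hki
            exact ⟨c1, g1, l2, hk', hs⟩
          · rw [e2, Function.update_of_ne hki] at hka
            obtain ⟨c0, h3, h4, h5, h6⟩ := i1.ex k a hka
            exact ⟨c0, h3, l2.trans h4, h5, h6⟩
        · rw [e2, Function.update_self]
  -- the reduction
  obtain ⟨c3, i3, l3, p3⟩ : ∃ c3, Inv D c3 ∧ Le c3 c2 ∧
      (RedS D (Nat.unpair i).1 (Nat.unpair i).2 c3 ∨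
        ∃ q, ∀ W, Full D c3 W → ∀ w, ¬ D.sol (Nat.unpair i).1 q w W) := by
    have hs : SolS D (Nat.unpair i).1 c2 := by
      rcases lt_or_eq_of_le (Nat.unpair_left_le i) with h3 | h3
      · exact (hi _ h3).mono (l2.trans l1)
      · rw [h3]
        exact p2
    rcases hs with hq | ⟨a, ha⟩
    · exact ⟨c2, i2, Le.refl _, Or.inr hq⟩
    · obtain ⟨c0, h3, h4, h5, h6⟩ := i2.ex _ a ha
      obtain ⟨c3, g3, l3, e3, -, n, hn, hf⟩ := stage_diag i2.good h3 h4 h5 h6 (Nat.unpair i).2 a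
      refine ⟨c3, i2.of_ee g3 l3 e3, l3, Or.inl ?_⟩
      intro a' ha'
      rw [e3, ha] at ha'
      cases ha'
      exact ⟨n, hn, hf⟩
  -- the prefix
  obtain ⟨g4, l4⟩ := prefix_good i3.good i3.good.full (m := max c3.m (i + 1)) (le_max_left _ _)
  refine ⟨_, i3.of_ee g4 l4 rfl, ((l4.trans l3).trans l2).trans l1,
    PairS.mono ((l4.trans l3).trans l2) p1, SolS.mono (l4.trans l3) p2, fun _ => ?_,
    lt_of_lt_of_le (Nat.lt_succ_self i) (le_max_right _ _)⟩
  rcases p3 with h3 | ⟨q, hq⟩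
  · left
    intro a ha
    obtain ⟨n, hn, hf⟩ := h3 a ha
    exact ⟨n, hn, fun W hW => hf W (hW.of_le l4)⟩
  · exact Or.inr ⟨q, fun W hW => hq W (hW.of_le l4)⟩

/-- The first condition. -/
def c00 : Cond := ⟨0, fun _ => true, fun _ => none, fun _ => none⟩

lemma inv_c00 : Inv D c00 := by
  refine ⟨⟨?_, ?_⟩, ?_⟩
  · intro L W _ l a h
    cases h
  · intro L
    refine ⟨fun _ _ => rfl, ?_, ?_⟩
    · intro l a h
      cases h
    · intro l a h
      cases h
  · intro k a h
    cases h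

/-- Steps of the chain. -/
structure StepS (D : Data) (i : ℕ) (c c' : Cond) : Prop where
  inv : Inv D c'
  le : Le c' c
  pair : PairS D i c'
  sol : SolS D i c'
  red : RedS D (Nat.unpair i).1 (Nat.unpair i).2 c' ∨
    ∃ q, ∀ W, Full D c' W → ∀ w, ¬ D.sol (Nat.unpair i).1 q w W
  m : i < c'.m

theorem exists_chain (D : Data) : ∃ c : ℕ → Cond, Inv D (c 0) ∧
    ∀ i, StepS D i (c i) (c (i + 1)) := by
  classical
  have key : ∀ (i : ℕ) (c : {c : Cond // Inv D c ∧ ∀ j < i, SolS D j c}),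
      ∃ c' : {c : Cond // Inv D c ∧ ∀ j < i + 1, SolS D j c}, StepS D i c.1 c'.1 := by
    rintro i ⟨c, hc, hi⟩
    obtain ⟨c', h1, h2, h3, h4, h5, h6⟩ := next hc i hi
    have hs : ∀ j < i + 1, SolS D j c' := by
      intro j hj
      rcases lt_or_eq_of_le (Nat.lt_succ_iff.1 hj) with h7 | h7
      · exact (hi j h7).mono h2
      · rw [h7]
        exact h4
    refine ⟨⟨c', h1, hs⟩, ⟨h1, h2, h3, h4, ?_, h6⟩⟩
    exact h5 (hs _ (Nat.lt_succ_of_le (Nat.unpair_left_le i)))
  choose f hf using key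
  let g : (i : ℕ) → {c : Cond // Inv D c ∧ ∀ j < i, SolS D j c} := fun i =>
    Nat.rec ⟨c00, inv_c00, fun j hj => absurd hj (Nat.not_lt_zero _)⟩ (fun i c => f i c) i
  exact ⟨fun i => (g i).1, (g 0).2.1, fun i => hf i (g i)⟩

/-- The abstract theorem. -/
theorem exists_world (D : Data) : ∃ W : World,
    (∀ l, (∃ x, ∀ b, ¬ D.acc l x b W) ∨
      ∃ a, ∀ z x, D.zr z l x → a ≤ z.length → D.acc l x (W z) W) ∧
    ∀ k, (∃ q, ∀ w, ¬ D.sol k q w W) ∨
      ∃ a, (∀ n, a ≤ n → ∃ y : Str, y.length = n ∧ W (D.encO k y) = true) ∧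
        ∀ r, ∃ n, a ≤ n ∧ D.fail k r n W := by
  obtain ⟨c, h0, hs⟩ := exists_chain D
  have hle : ∀ i j, i ≤ j → Le (c j) (c i) := by
    intro i j hij
    induction j, hij using Nat.le_induction with
    | base => exact Le.refl _
    | succ j _ ih => exact (hs j).le.trans ih
  have hm : ∀ i, i ≤ (c i).m := by
    intro i
    rcases i with _ | i
    · exact Nat.zero_le _
    · exact (hs i).m
  have hgood : ∀ i, Good D (c i) := by
    intro i
    rcases i with _ | i
    · exact h0.good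
    · exact (hs i).inv.good
  set W : World := fun z => (c (z.length + 1)).u z with hW
  have hWu : ∀ i (z : Str), z.length < (c i).m → W z = (c i).u z := by
    intro i z hz
    rw [hW]
    simp only
    rcases le_total i (z.length + 1) with h | h
    · exact (hle _ _ h).u z hz
    · exact ((hle _ _ h).u z (lt_of_lt_of_le (Nat.lt_succ_self _) (hm _))).symm
  have hfull : ∀ i, Full D (c i) W := by
    intro i L
    refine ⟨fun z hz => hWu i z hz, fun l a hl z x hz ha hzL => ?_, fun k a hk n hn hnL => ?_⟩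
    · set j := max i (z.length + 1) with hj
      have h1 : z.length < (c j).m := lt_of_lt_of_le (Nat.lt_succ_self _)
        ((le_max_right _ _).trans (hm j))
      have h2 := ((hgood j).full (z.length + 1)).val l a
        ((hle i j (le_max_left _ _)).est l a hl) z x hz ha (Nat.lt_succ_self _)
      rw [← hWu j z h1] at h2
      exact acc_congr l x _ (tp_lt hz) (fun q hq => (hWu j q (hq.trans h1)).symm) h2
    · set j := max i (k + 2 + n + 1) with hj
      have h1 : k + 2 + n < (c j).m := lt_of_lt_of_le (Nat.lt_succ_self _)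
        ((le_max_right _ _).trans (hm j))
      obtain ⟨y, hy, hy'⟩ := ((hgood j).full (k + 2 + n + 1)).prm k a
        ((hle i j (le_max_left _ _)).ee k a hk) n hn (Nat.lt_succ_self _)
      refine ⟨y, hy, ?_⟩
      rw [hWu j _ (by rw [D.encO_len, hy]; exact h1)]
      exact hy'
  refine ⟨W, fun l => ?_, fun k => ?_⟩
  · rcases (hs l).pair with ⟨x, hx⟩ | ⟨a, ha⟩
    · exact Or.inl ⟨x, hx W (hfull _)⟩
    · refine Or.inr ⟨a, fun z x hz haz => ?_⟩
      exact (hfull (l + 1) (z.length + 1)).val l a ha z x hz haz (Nat.lt_succ_self _)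
  · rcases (hs k).sol with ⟨q, hq⟩ | ⟨a, ha⟩
    · exact Or.inl ⟨q, hq W (hfull _)⟩
    · by_cases hns : ∃ q, ∀ w, ¬ D.sol k q w W
      · exact Or.inl hns
      · refine Or.inr ⟨a, fun n hn => ?_, fun r => ?_⟩
        · exact (hfull (k + 1) (k + 2 + n + 1)).prm k a ha n hn (Nat.lt_succ_self _)
        · have h1 := (hs (Nat.pair k r)).red
          rw [Nat.unpair_pair] at h1
          simp only at h1
          rcases h1 with h1 | ⟨q, hq⟩
          · have hkr : k + 1 ≤ Nat.pair k r + 1 := Nat.succ_le_succ (Nat.left_le_pair k r)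
            obtain ⟨n, hn, hf⟩ := h1 a ((hle _ _ hkr).ee k a ha)
            exact ⟨n, hn, hf W (hfull _)⟩
          · exact absurd ⟨q, hq W (hfull _)⟩ hns

end Pool.Agent.S1
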