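import Pool.Agent.Work.MP_46935e_lc.S1.Mach
import Pool.Agent.Work.MP_46935e_lc.S1.Chain

/-!
# The data of the construction
-/

set_option autoImplicit false

noncomputable section

namespace Pool.Agent.S1

open Pool.Agent.RO Pool.Agent.PT Pool.Agent.Work.MP_46935e_lc

/-! ### Countability -/

lemma countable_polyN : Countable (Polynomial ℕ) := by
  have h2 : Function.Injective
      (fun p : Polynomial ℕ => (List.range (p.natDegree + 1)).map p.coeff) := by
    intro p q hpq
    simp only at hpq
    have hl := congrArg List.length hpq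
    simp only [List.length_map, List.length_range] at hl
    have hd : p.natDegree = q.natDegree := by omega
    ext n
    rcases Nat.lt_or_ge p.natDegree n with hn | hn
    · rw [Polynomial.coeff_eq_zero_of_natDegree_lt hn,
        Polynomial.coeff_eq_zero_of_natDegree_lt (hd ▸ hn)]
    · rw [hd] at hpq
      exact List.map_inj_left.1 hpq n (List.mem_range.2 (by omega))
  exact h2.countable

lemma countable_ipt {α β : Type} [N487b59b3 α] [N487b59b3 β] :
    Countable {f : α → β // N68a2faeb.IsPolyTime f} :=
  (countable_tm2 (α := α) (β := β) (N487b59b3.toEncoding (α := α)).encode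
    (N487b59b3.toEncoding (α := β)).encode N487b59b3.bitEncode_injective).to_subtype

instance : Countable VD := by
  have := countable_polyN
  have := countable_ipt (α := (List Bool × List Bool) × List Bool) (β := Bool × List Bool)
  refine Function.Injective.countable (f := fun d : VD =>
    ((d.p, d.q), (⟨d.g, d.hg⟩ : {f : (List Bool × List Bool) × List Bool → Bool × List Bool //
      N68a2faeb.IsPolyTime f}))) ?_
  rintro ⟨p, g, q, hg⟩ ⟨p', g', q', hg'⟩ h
  simp only [Prod.mk.injEq, Subtype.mk.injEq] at h
  obtain ⟨⟨rfl, rfl⟩, rfl⟩ := h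
  rfl

instance : Countable Red := by
  have := countable_polyN
  have h1 := countable_ipt (α := (List Bool × List Bool) × List Bool) (β := Bool × List Bool)
  have h2 := countable_ipt (α := List Bool × List Bool) (β := Bool × List Bool)
  refine Function.Injective.countable (f := fun r : Red => (match r with
    | .mo g₁ p₁ h₁ g₂ p₂ h₂ => Sum.inl ((p₁, p₂),
        ((⟨g₁, h₁⟩ : {f : List Bool × List Bool → Bool × List Bool //
          N68a2faeb.IsPolyTime f}), (⟨g₂, h₂⟩ :
          {f : (List Bool × List Bool) × List Bool → Bool × List Bool //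
            N68a2faeb.IsPolyTime f})))
    | .tu g p h => Sum.inr (p, (⟨g, h⟩ : {f : List Bool × List Bool → Bool × List Bool //
          N68a2faeb.IsPolyTime f})) :
      ((Polynomial ℕ × Polynomial ℕ) × ({f : List Bool × List Bool → Bool × List Bool //
          N68a2faeb.IsPolyTime f} × {f : (List Bool × List Bool) × List Bool → Bool × List Bool //
            N68a2faeb.IsPolyTime f})) ⊕ (Polynomial ℕ ×
        {f : List Bool × List Bool → Bool × List Bool // N68a2faeb.IsPolyTime f}))) ?_
  intro r r' h
  cases r with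
  | mo g₁ p₁ h₁ g₂ p₂ h₂ =>
    cases r' with
    | mo g₁' p₁' h₁' g₂' p₂' h₂' =>
      simp only [Sum.inl.injEq, Prod.mk.injEq, Subtype.mk.injEq] at h
      obtain ⟨⟨rfl, rfl⟩, rfl, rfl⟩ := h
      rfl
    | tu g p h' => simp at h
  | tu g p h' =>
    cases r' with
    | mo g₁' p₁' h₁' g₂' p₂' h₂' => simp at h
    | tu g' p' h'' =>
      simp only [Sum.inr.injEq, Prod.mk.injEq, Subtype.mk.injEq] at h
      obtain ⟨rfl, rfl⟩ := h
      rfl

instance : Nonempty VD :=
  ⟨⟨0, fun _ => (true, []), 0, of_ptf_T (PTF.const _)⟩⟩

instance : Nonempty Red :=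
  ⟨.tu (fun _ => (true, [])) 0 (of_ptf_P (PTF.const _))⟩

/-! ### Addresses -/

/-- Free strings. -/
def eO (k : ℕ) (y : Str) : Str := true :: (List.replicate k true ++ false :: y)

/-- Addresses. -/
def eZ (l p : ℕ) (x : Str) : Str :=
  false :: (List.replicate l true ++ false :: (List.replicate p false ++ true :: x))

lemma unary_inj (b : Bool) : ∀ (k k' : ℕ) (y y' : Str),
    List.replicate k b ++ (!b) :: y = List.replicate k' b ++ (!b) :: y' → k = k' ∧ y = y' := by
  intro k
  induction k with
  | zero =>
    intro k' y y' h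
    cases k' with
    | zero =>
      simp at h
      exact ⟨rfl, h⟩
    | succ k' =>
      rw [List.replicate_succ] at h
      simp at h
  | succ k ih =>
    intro k' y y' h
    cases k' with
    | zero =>
      rw [List.replicate_succ] at h
      simp at h
    | succ k' =>
      rw [List.replicate_succ, List.replicate_succ, List.cons_append, List.cons_append] at h
      obtain ⟨h1, h2⟩ := ih k' y y' (List.cons.inj h).2
      exact ⟨by rw [h1], h2⟩

lemma eO_inj (k : ℕ) (y : Str) (k' : ℕ) (y' : Str) (h : eO k y = eO k' y') :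
    k = k' ∧ y = y' :=
  unary_inj true k k' y y' (List.cons.inj h).2

lemma eZ_inj {l p : ℕ} {x : Str} {l' p' : ℕ} {x' : Str} (h : eZ l p x = eZ l' p' x') :
    l = l' ∧ x = x' := by
  obtain ⟨h1, h2⟩ := unary_inj true l l' _ _ (List.cons.inj h).2
  exact ⟨h1, (unary_inj false p p' _ _ h2).2⟩

lemma length_eO (k : ℕ) (y : Str) : (eO k y).length = k + 2 + y.length := by
  simp only [eO, List.length_cons, List.length_append, List.length_replicate]
  omega

lemma length_eZ (l p : ℕ) (x : Str) : (eZ l p x).length = l + p + x.length + 3 := by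
  simp only [eZ, List.length_cons, List.length_append, List.length_replicate]
  omega

lemma eZ_ne (l p : ℕ) (x : Str) (k : ℕ) (y : Str) : eZ l p x ≠ eO k y := by
  intro h
  have := (List.cons.inj h).1
  cases this

/-! ### Failure -/

/-- The reduction `r` to the search problem `d` fails. -/
def rfail (d : VD) (r : Red) (k n : ℕ) (W : World) : Prop :=
  ∃ S : Str → Str, (∀ q, vsol d q (S q) W) ∧
    ¬ ∃ y : Str, r.run W S (List.replicate n true) = some y ∧ y.length = n ∧ W (eO k y) = true

/-- Bound for failure certificates. -/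
def xP (d : VD) (k : ℕ) (P : Polynomial ℕ) : Polynomial ℕ :=
  P + (P + 1) * (pb d).comp P + Polynomial.X + Polynomial.C (k + 3)

lemma xP_eval (d : VD) (k : ℕ) (P : Polynomial ℕ) (n : ℕ) :
    (xP d k P).eval n = P.eval n + (P.eval n + 1) * (pb d).eval (P.eval n) + n + (k + 3) := by
  simp [xP]

theorem rfail_spec (d : VD) (r : Red) (k n : ℕ) {P : Polynomial ℕ} (hP : IsLoc r d.p P)
    (W₀ : World) (h0 : ∀ q, ∃ w, vsol d q w W₀)
    (hO : ∀ y : Str, y.length = n → W₀ (eO k y) = false) :
    ∃ D : Finset Str, D.card ≤ (xP d k P).eval n ∧ (∀ z ∈ D, z.length ≤ (xP d k P).eval n) ∧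
      ∀ W : World, (∀ q, ∃ w, vsol d q w W) → (∀ z ∈ D, W z = W₀ z) → rfail d r k n W := by
  classical
  choose S₀ hS₀ using h0
  obtain ⟨Q, Q', hQ1, hQ2, hQ3, hQ4, hQ5⟩ := hP W₀ S₀ (fun q => (hS₀ q).1)
    (List.replicate n true)
  rw [List.length_replicate] at hQ1 hQ2 hQ3 hQ4
  choose C hC1 hC2 hC3 using fun q => vsol_cert d (le_refl q.length) (hS₀ q)
  rw [xP_eval]
  set N := P.eval n with hN
  set b := (pb d).eval N with hb
  have hpb : ∀ q ∈ Q', d.rb q.length + d.ub q.length ≤ b := by
    intro q hq
    rw [hb, ← pb_eval]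
    exact eval_mono _ (hQ4 q hq)
  -- the last string
  set E : Finset Str := match r.run W₀ S₀ (List.replicate n true) with
    | some y => if y.length = n then {eO k y} else ∅
    | none => ∅ with hE
  have hE1 : E.card ≤ 1 := by
    rw [hE]
    cases r.run W₀ S₀ (List.replicate n true) with
    | none => simp
    | some y =>
      simp only
      split_ifs <;> simp
  have hE2 : ∀ z ∈ E, z.length ≤ k + 2 + n := by
    rw [hE]
    cases r.run W₀ S₀ (List.replicate n true) with
    | none => simp
    | some y =>
      simp only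
      split_ifs with h
      · intro z hz
        rw [Finset.mem_singleton.1 hz, length_eO, h]
      · simp
  refine ⟨Q ∪ Q'.biUnion C ∪ E, ?_, ?_, ?_⟩
  · have h1 : (Q'.biUnion C).card ≤ Q'.card * b := by
      refine Finset.card_biUnion_le.trans ?_
      refine (Finset.sum_le_card_nsmul _ _ b fun q hq => ?_).trans (by rw [smul_eq_mul])
      have := hpb q hq
      have := hC1 q
      omega
    have h2 := Finset.card_union_le (Q ∪ Q'.biUnion C) E
    have h3 := Finset.card_union_le Q (Q'.biUnion C)
    have h4 : Q'.card * b ≤ N * b := Nat.mul_le_mul_right _ hQ3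
    have h5 : (N + 1) * b = N * b + b := by ring
    omega
  · intro z hz
    rw [Finset.mem_union, Finset.mem_union, Finset.mem_biUnion] at hz
    have h5 : (N + 1) * b = N * b + b := by ring
    rcases hz with (h | ⟨q, hq, h⟩) | h
    · have := hQ2 z h
      omega
    · have h1 := hC2 q z h
      have h2 := hpb q hq
      omega
    · have := hE2 z h
      omega
  · intro W hW hWD
    choose S₁ hS₁ using hW
    refine ⟨fun q => if q ∈ Q' then S₀ q else S₁ q, fun q => ?_, ?_⟩
    · simp only
      split_ifs with hq
      · refine hC3 q W fun z hz => hWD z ?_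
        exact Finset.mem_union_left _ (Finset.mem_union_right _ (Finset.mem_biUnion.2 ⟨q, hq, hz⟩))
      · exact hS₁ q
    · rintro ⟨y, h1, h2, h3⟩
      rw [hQ5 W _ (fun z hz => hWD z (Finset.mem_union_left _ (Finset.mem_union_left _ hz)))
        (fun q hq => if_pos hq)] at h1
      have hy : eO k y ∈ E := by
        rw [hE, h1]
        simp only [if_pos h2]
        exact Finset.mem_singleton_self _
      rw [hWD _ (Finset.mem_union_right _ hy), hO y h2] at h3
      cases h3

/-! ### The data -/

/-- Polynomial of a pair. -/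
def pairP (dd : VD × VD) : Polynomial ℕ := pb dd.1 + pb dd.2

/-- The polynomial of a reduction. -/
def locP (r : Red) (d : VD) : Polynomial ℕ := (exists_loc r d.p).choose

lemma locP_spec (r : Red) (d : VD) : IsLoc r d.p (locP r d) := (exists_loc r d.p).choose_spec

/-- The data of the construction. -/
def theData (pairs : ℕ → VD × VD) (cands : ℕ → VD) (reds : ℕ → Red) : Data where
  encO := eO
  encO_len := length_eO
  encO_inj := eO_inj
  zr z l x := ∃ p, z = eZ l p x ∧ 2 * (pairP (pairs l)).eval x.length ≤ z.length
  zr_unique := by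
    rintro z l x l' x' ⟨p, rfl, -⟩ ⟨p', h, -⟩
    exact eZ_inj h
  zO := by
    rintro z l x k y ⟨p, rfl, -⟩
    exact eZ_ne l p x k y
  acc l x b W := acc (if b = true then (pairs l).2 else (pairs l).1) W x
  tp l n := (pairP (pairs l)).eval n
  acc_loc := by
    intro l x b W h
    have key : ∀ d : VD, (pb d).eval x.length ≤ (pairP (pairs l)).eval x.length → acc d W x →
        ∃ Q : Finset Str, Q.card ≤ (pairP (pairs l)).eval x.length ∧
          (∀ q ∈ Q, q.length ≤ (pairP (pairs l)).eval x.length) ∧
          ∀ W' : World, (∀ q ∈ Q, W' q = W q) → acc d W' x := by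
      intro d hd hacc
      obtain ⟨w, hw⟩ := hacc
      obtain ⟨Q, h1, h2, h3⟩ := vsol_cert d (le_refl x.length) (show vsol d x w W from hw)
      rw [pb_eval] at hd
      exact ⟨Q, by omega, fun q hq => (h2 q hq).trans (by omega), fun W' hW' => ⟨w, h3 W' hW'⟩⟩
    refine key _ ?_ h
    rw [pairP, Polynomial.eval_add]
    split_ifs
    · exact Nat.le_add_left _ _
    · exact Nat.le_add_right _ _
  zlen := by
    rintro z l x ⟨p, rfl, h⟩
    refine ⟨h, ?_⟩
    rw [length_eZ]
    omega
  sol k q w W := vsol (cands k) q w W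
  sol_loc := by
    intro k q
    refine ⟨(cands k).ub q.length + 1, fun W W' h w hw => ?_⟩
    obtain ⟨Q, -, h2, h3⟩ := vsol_cert (cands k) (le_refl q.length) hw
    exact h3 W' fun z hz => (h z (Nat.lt_succ_of_le (h2 z hz))).symm
  fail k r n W := rfail (cands k) (reds r) k n W
  X k r n := (xP (cands k) k (locP (reds r) (cands k))).eval n
  X_ge := by
    intro k r n
    rw [xP_eval]
    omega
  fail_spec := by
    intro k r n W₀ h0 hO
    exact rfail_spec (cands k) (reds r) k n (locP_spec _ _) W₀ h0 hO
  X_small := by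
    intro k r
    exact size_small _ fun n => by
      rw [xP_eval]
      omega

end Pool.Agent.S1
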