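import Mathlib

/-!
# Amplification of predictability

Worlds are oracles.  Some strings (`isO`) are free, some strings (`isZ`) must hold a certified bit,
all the others are fixed.  Certificates of `z` are small sets of strings of at most half the length
of `z`.  If every legal partial world has a certified value at the next string then there is a
default world `d` such that every small set of values of `d` occurs in a legal world.
-/

set_option autoImplicit false

open Finset

noncomputable section

namespace Pool.Agent.S1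

/-- Strings. -/
abbrev Str := List Bool

/-- Oracles. -/
abbrev World := Str → Bool

/-- The rules. -/
structure Sys where
  /-- free strings -/
  isO : Str → Prop
  /-- strings with certified values -/
  isZ : Str → Prop
  /-- values of the other strings -/
  v : World
  /-- the value `b` of `z` is certified in the world `W` -/
  cert : Str → Bool → World → Prop
  oz : ∀ z, isO z → ¬ isZ z
  pos : ∀ z, isZ z → 1 ≤ z.length
  loc : ∀ z b W, isZ z → cert z b W → ∃ Q : Finset Str, Q.card ≤ z.length / 2 ∧
    (∀ q ∈ Q, q.length ≤ z.length / 2) ∧ ∀ W' : World, (∀ q ∈ Q, W' q = W q) → cert z b W'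

/-- Legal worlds. -/
structure Sys.Legal (S : Sys) (W : World) : Prop where
  fix : ∀ z, ¬ S.isO z → ¬ S.isZ z → W z = S.v z
  ne : ∃ z, S.isO z ∧ W z = true
  val : ∀ z, S.isZ z → S.cert z (W z) W

/-- Every legal partial world has a certified value at the next string. -/
def Sys.Total (S : Sys) : Prop :=
  ∀ (W : World) (z : Str), (∀ z, ¬ S.isO z → ¬ S.isZ z → W z = S.v z) →
    (∃ z, S.isO z ∧ W z = true) →
    (∀ z', S.isZ z' → z'.length < z.length → S.cert z' (W z') W) → S.isZ z → ∃ b, S.cert z b W

/-! ### Worlds defined by recursion on the length -/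

/-- Iterated update. -/
def bld (isZ : Str → Prop) (upd : Str → World → Bool) (W0 : World) : ℕ → World
  | 0 => W0
  | L + 1 => open Classical in
      fun z => if z.length = L ∧ isZ z then upd z (bld isZ upd W0 L) else bld isZ upd W0 L z

lemma bld_nonZ {isZ : Str → Prop} {upd : Str → World → Bool} {W0 : World} {z : Str}
    (h : ¬ isZ z) (L : ℕ) : bld isZ upd W0 L z = W0 z := by
  induction L with
  | zero => rfl
  | succ L ih =>
    rw [bld]
    simp only
    rw [if_neg (fun hc => h hc.2), ih]

lemma bld_stable {isZ : Str → Prop} {upd : Str → World → Bool} {W0 : World} {z : Str}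
    {L : ℕ} (h : z.length < L) : bld isZ upd W0 L z = bld isZ upd W0 (z.length + 1) z := by
  induction L with
  | zero => omega
  | succ L ih =>
    by_cases hL : z.length = L
    · rw [hL]
    · rw [bld]
      simp only
      rw [if_neg (fun hc => hL hc.1), ih (by omega)]

theorem exists_build (isZ : Str → Prop) (upd : Str → World → Bool)
    (hupd : ∀ z, isZ z → ∀ G G' : World, (∀ q : Str, q.length < z.length → G q = G' q) →
      upd z G = upd z G') (W0 : World) :
    ∃ W : World, (∀ z, ¬ isZ z → W z = W0 z) ∧ ∀ z, isZ z → W z = upd z W := by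
  refine ⟨fun z => bld isZ upd W0 (z.length + 1) z, fun z hz => bld_nonZ hz _, fun z hz => ?_⟩
  simp only
  rw [bld]
  simp only
  rw [if_pos ⟨rfl, hz⟩]
  refine hupd z hz _ _ fun q hq => ?_
  exact bld_stable hq

namespace Sys

variable (S : Sys)

/-- Certificates only depend on shorter strings. -/
lemma cert_congr {z : Str} {b : Bool} (hz : S.isZ z) {G G' : World}
    (h : ∀ q : Str, q.length < z.length → G q = G' q) : S.cert z b G ↔ S.cert z b G' := by
  have hp := S.pos z hz
  constructor
  · intro hc
    obtain ⟨Q, -, hQ, hQ'⟩ := S.loc z b G hz hc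
    exact hQ' G' fun q hq => (h q (by have := hQ q hq; omega)).symm
  · intro hc
    obtain ⟨Q, -, hQ, hQ'⟩ := S.loc z b G' hz hc
    exact hQ' G fun q hq => h q (by have := hQ q hq; omega)

/-- The set `π` is closed under certificates in the world `W`. -/
def Closed (W : World) (π : Finset Str) : Prop :=
  ∀ z ∈ π, S.isZ z → ∃ Q ⊆ π, (∀ q ∈ Q, q.length < z.length) ∧
    ∀ W' : World, (∀ q ∈ Q, W' q = W q) → S.cert z (W z) W'

theorem exists_closed {W : World} (hW : ∀ z, S.isZ z → S.cert z (W z) W) (j : ℕ) :
    ∀ z, S.isZ z → z.length < 2 ^ j → ∃ π : Finset Str, π.card ≤ 2 ^ (j ^ 2) ∧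
      (∀ q ∈ π, q.length ≤ z.length / 2) ∧ S.Closed W π ∧
      ∀ W' : World, (∀ q ∈ π, W' q = W q) → S.cert z (W z) W' := by
  classical
  induction j with
  | zero =>
    intro z hz hl
    have := S.pos z hz
    rw [pow_zero] at hl
    omega
  | succ j ih =>
    intro z hz hl
    have hp := S.pos z hz
    obtain ⟨Q, hQ1, hQ2, hQ3⟩ := S.loc z _ W hz (hW z hz)
    have h1 : z.length / 2 < 2 ^ j := by
      rw [pow_succ] at hl
      omega
    have h2 : ∀ q : Str, ∃ π : Finset Str, q ∈ Q → S.isZ q → π.card ≤ 2 ^ (j ^ 2) ∧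
      (∀ q' ∈ π, q'.length ≤ q.length / 2) ∧ S.Closed W π ∧
      ∀ W' : World, (∀ q ∈ π, W' q = W q) → S.cert q (W q) W' := by
      intro q
      by_cases hq : q ∈ Q ∧ S.isZ q
      · obtain ⟨π, hπ⟩ := ih q hq.2 (lt_of_le_of_lt (hQ2 q hq.1) h1)
        exact ⟨π, fun _ _ => hπ⟩
      · exact ⟨∅, fun h h' => absurd ⟨h, h'⟩ hq⟩
    choose P hP using h2
    refine ⟨Q ∪ (Q.filter S.isZ).biUnion P, ?_, ?_, ?_, ?_⟩
    · have h3 : ((Q.filter S.isZ).biUnion P).card ≤ Q.card * 2 ^ (j ^ 2) := by
        refine (card_biUnion_le).trans ?_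
        refine (sum_le_card_nsmul _ _ (2 ^ (j ^ 2)) fun q hq => ?_).trans ?_
        · rw [mem_filter] at hq
          exact (hP q hq.1 hq.2).1
        · rw [smul_eq_mul]
          exact Nat.mul_le_mul_right _ (card_filter_le _ _)
      have h4 := card_union_le Q ((Q.filter S.isZ).biUnion P)
      have h5 : Q.card ≤ 2 ^ j := hQ1.trans h1.le
      have h6 : 1 ≤ 2 ^ (j ^ 2) := Nat.one_le_two_pow
      calc (Q ∪ (Q.filter S.isZ).biUnion P).card ≤ Q.card + Q.card * 2 ^ (j ^ 2) := by omega
        _ ≤ 2 ^ j * 2 ^ (j ^ 2) + 2 ^ j * 2 ^ (j ^ 2) := by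
            refine add_le_add ?_ (Nat.mul_le_mul_right _ h5)
            exact h5.trans (Nat.le_mul_of_pos_right _ (by omega))
        _ = 2 ^ (j + j ^ 2 + 1) := by rw [pow_succ, pow_add]; ring
        _ ≤ 2 ^ ((j + 1) ^ 2) := Nat.pow_le_pow_right (by norm_num) (by nlinarith)
    · intro q hq
      rw [mem_union, mem_biUnion] at hq
      rcases hq with hq | ⟨q', hq', hq⟩
      · exact hQ2 q hq
      · rw [mem_filter] at hq'
        have h3 := (hP q' hq'.1 hq'.2).2.1 q hq
        have h4 := hQ2 q' hq'.1
        omega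
    · intro q hq hqZ
      rw [mem_union, mem_biUnion] at hq
      rcases hq with hq | ⟨q', hq', hq⟩
      · obtain ⟨-, h3, -, h4⟩ := hP q hq hqZ
        have hqp := S.pos q hqZ
        refine ⟨P q, ?_, fun q' hq' => ?_, h4⟩
        · intro x hx
          rw [mem_union, mem_biUnion]
          exact Or.inr ⟨q, mem_filter.2 ⟨hq, hqZ⟩, hx⟩
        · have := h3 q' hq'
          omega
      · rw [mem_filter] at hq'
        obtain ⟨-, -, h3, -⟩ := hP q' hq'.1 hq'.2
        obtain ⟨Q', h4, h5, h6⟩ := h3 q hq hqZ
        refine ⟨Q', h4.trans ?_, h5, h6⟩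
        intro x hx
        rw [mem_union, mem_biUnion]
        exact Or.inr ⟨q', mem_filter.2 hq', hx⟩
    · intro W' hW'
      exact hQ3 W' fun q hq => hW' q (mem_union_left _ hq)

/-- Combination of worlds. -/
theorem combine (hT : S.Total) {ι : Type} [Nonempty ι] (Ws : ι → World)
    (hWs : ∀ i, S.Legal (Ws i)) (d d' : World) (B : ℕ) :
    ∃ W : World, S.Legal W ∧ (∀ z, S.isO z → (W z = true ↔ ∃ i, Ws i z = true)) ∧
      (∀ z, S.isZ z → z.length < B → (∃ i, Ws i z ≠ d z) → S.cert z (!d z) W → W z = !d z) ∧
      (∀ z, S.isZ z → z.length < B → (∀ i, Ws i z = d z) → S.cert z (d z) W → W z = d z) ∧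
      (∀ z, S.isZ z → B ≤ z.length → S.cert z (d' z) W → W z = d' z) := by
  classical
  set dd : World := fun z => if z.length < B then d z else d' z with hdd
  set upd : Str → World → Bool := fun z G =>
    if z.length < B ∧ (∃ i, Ws i z ≠ d z) ∧ S.cert z (!d z) G then !d z
    else if S.cert z (dd z) G then dd z else !dd z with hu
  set W0 : World := fun z => if S.isO z then decide (∃ i, Ws i z = true) else S.v z with hW0
  obtain ⟨W, h1, h2⟩ := exists_build S.isZ upd (by
    intro z hz G G' hG
    simp only [hu]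
    have e : ∀ b, S.cert z b G ↔ S.cert z b G' := fun b => S.cert_congr hz hG
    simp only [e]) W0
  have hO : ∀ z, S.isO z → (W z = true ↔ ∃ i, Ws i z = true) := by
    intro z hz
    rw [h1 z (S.oz z hz), hW0]
    simp only [if_pos hz, decide_eq_true_eq]
  have hfix : ∀ z, ¬ S.isO z → ¬ S.isZ z → W z = S.v z := by
    intro z hz hz'
    rw [h1 z hz', hW0]
    simp only [if_neg hz]
  have hne : ∃ z, S.isO z ∧ W z = true := by
    obtain ⟨i⟩ := ‹Nonempty ι›
    obtain ⟨z, hz, hz'⟩ := (hWs i).ne
    exact ⟨z, hz, (hO z hz).2 ⟨i, hz'⟩⟩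
  have hval : ∀ (n : ℕ) (z : Str), z.length = n → S.isZ z → S.cert z (W z) W := by
    intro n
    induction n using Nat.strong_induction_on with
    | _ n ih =>
      intro z hzn hz
      obtain ⟨b, hb⟩ := hT W z hfix hne (fun z' hz' hl => ih z'.length (hzn ▸ hl) z' rfl hz') hz
      rw [h2 z hz]
      simp only [hu]
      split_ifs with c1 c2
      · exact c1.2.2
      · exact c2
      · have : b = !dd z := by
          rcases hb' : b with _ | _ <;> rcases hd' : dd z with _ | _
          · rw [hb'] at hb; rw [hd'] at c2; exact absurd hb c2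
          · rfl
          · rfl
          · rw [hb'] at hb; rw [hd'] at c2; exact absurd hb c2
        rw [← this]
        exact hb
  refine ⟨W, ⟨hfix, hne, fun z hz => hval _ z rfl hz⟩, hO, ?_, ?_, ?_⟩
  · intro z hz hB hi hc
    rw [h2 z hz]
    simp only [hu]
    rw [if_pos ⟨hB, hi, hc⟩]
  · intro z hz hB hi hc
    have hdz : dd z = d z := by rw [hdd]; simp only [if_pos hB]
    rw [h2 z hz]
    simp only [hu]
    rw [if_neg, if_pos]
    · exact hdz
    · rw [hdz]; exact hc
    · rintro ⟨-, ⟨i, h⟩, -⟩
      exact h (hi i)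
  · intro z hz hB hc
    have hdz : dd z = d' z := by rw [hdd]; simp only [if_neg (not_lt.2 hB)]
    rw [h2 z hz]
    simp only [hu]
    rw [if_neg (fun h => absurd h.1 (not_lt.2 hB)), if_pos]
    · exact hdz
    · rw [hdz]; exact hc

/-- Survival: if the other worlds do not deviate from the default on a closed set of `Ws i`, then
the combination agrees with `Ws i` there. -/
theorem survive {ι : Type} (Ws : ι → World) (hWs : ∀ i, S.Legal (Ws i)) (d : World)
    (hdO : ∀ z, S.isO z → d z = false) {B : ℕ} {W : World} (hW : S.Legal W)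
    (hO : ∀ z, S.isO z → (W z = true ↔ ∃ i, Ws i z = true))
    (h1 : ∀ z, S.isZ z → z.length < B → (∃ i, Ws i z ≠ d z) → S.cert z (!d z) W → W z = !d z)
    (h2 : ∀ z, S.isZ z → z.length < B → (∀ i, Ws i z = d z) → S.cert z (d z) W → W z = d z)
    (i : ι) (π : Finset Str) (hπB : ∀ q ∈ π, q.length < B) (hc : S.Closed (Ws i) π)
    (hdev : ∀ i', i' ≠ i → ∀ q ∈ π, S.isO q ∨ S.isZ q → Ws i' q = d q) :
    ∀ q ∈ π, W q = Ws i q := by
  have key : ∀ (n : ℕ) (q : Str), q.length = n → q ∈ π → W q = Ws i q := by
    intro n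
    induction n using Nat.strong_induction_on with
    | _ n ih =>
      intro q hqn hq
      by_cases hqO : S.isO q
      · rcases hb : Ws i q with _ | _
        · by_contra hne
          have ht : W q = true := by simpa using hne
          obtain ⟨i', hi'⟩ := (hO q hqO).1 ht
          by_cases hii : i' = i
          · rw [hii, hb] at hi'; cases hi'
          · rw [hdev i' hii q hq (Or.inl hqO), hdO q hqO] at hi'
            cases hi'
        · exact (hO q hqO).2 ⟨i, hb⟩
      · by_cases hqZ : S.isZ q
        · obtain ⟨Q, hQ1, hQ2, hQ3⟩ := hc q hq hqZ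
          have hcert : S.cert q (Ws i q) W := hQ3 W fun q' hq' =>
            ih q'.length (hqn ▸ hQ2 q' hq') q' rfl (hQ1 hq')
          by_cases hid : Ws i q = d q
          · have hall : ∀ i', Ws i' q = d q := by
              intro i'
              by_cases hii : i' = i
              · rw [hii, hid]
              · exact hdev i' hii q hq (Or.inr hqZ)
            rw [hid] at hcert ⊢
            exact h2 q hqZ (hπB q hq) hall hcert
          · have hne : Ws i q = !d q := by
              rcases h3 : Ws i q with _ | _ <;> rcases h4 : d q with _ | _ <;> simp_all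
            rw [hne] at hcert ⊢
            exact h1 q hqZ (hπB q hq) ⟨i, hid⟩ hcert
        · rw [hW.fix q hqO hqZ, (hWs i).fix q hqO hqZ]
  exact fun q hq => key _ q rfl hq

end Sys

end Pool.Agent.S1
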