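import Pool.Agent.Work.MP_46935e_lc.S1.Step

/-!
# The construction of the oracle: conditions
-/

set_option autoImplicit false

open Finset

noncomputable section

namespace Pool.Agent.S1

/-- Abstract data of the construction. -/
structure Data where
  /-- the strings of the search problem number `k` -/
  encO : ℕ → Str → Str
  encO_len : ∀ k y, (encO k y).length = k + 2 + y.length
  encO_inj : ∀ k y k' y', encO k y = encO k' y' → k = k' ∧ y = y'
  /-- `zr z l x`: the string `z` is an address for the instance `x` of the pair number `l` -/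
  zr : Str → ℕ → Str → Prop
  zr_unique : ∀ z l x l' x', zr z l x → zr z l' x' → l = l' ∧ x = x'
  zO : ∀ z l x k y, zr z l x → z ≠ encO k y
  /-- certificates of the pair number `l` -/
  acc : ℕ → Str → Bool → World → Prop
  tp : ℕ → ℕ → ℕ
  acc_loc : ∀ l x b W, acc l x b W → ∃ Q : Finset Str, Q.card ≤ tp l x.length ∧
    (∀ q ∈ Q, q.length ≤ tp l x.length) ∧ ∀ W' : World, (∀ q ∈ Q, W' q = W q) → acc l x b W'
  zlen : ∀ z l x, zr z l x → 2 * tp l x.length ≤ z.length ∧ 1 ≤ z.length
  /-- `w` is a solution of the instance `q` of the search problem number `k` -/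
  sol : ℕ → Str → Str → World → Prop
  sol_loc : ∀ k q, ∃ L, ∀ W W' : World, (∀ z : Str, z.length < L → W z = W' z) →
    ∀ w, sol k q w W → sol k q w W'
  /-- failure of the reduction number `r` -/
  fail : ℕ → ℕ → ℕ → World → Prop
  X : ℕ → ℕ → ℕ → ℕ
  X_ge : ∀ k r n, k + 2 + n ≤ X k r n
  fail_spec : ∀ k r n W₀, (∀ q, ∃ w, sol k q w W₀) → (∀ y : Str, y.length = n →
    W₀ (encO k y) = false) → ∃ D : Finset Str, D.card ≤ X k r n ∧ (∀ z ∈ D, z.length ≤ X k r n) ∧
    ∀ W : World, (∀ q, ∃ w, sol k q w W) → (∀ z ∈ D, W z = W₀ z) → fail k r n W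
  X_small : ∀ k r, ∀ᶠ n in Filter.atTop, ∃ J, X k r n < 2 ^ J ∧
    (X k r n : ℝ) * ((Sys.amC n J + 1) ^ J * (1 / 2) ^ n) < 1

/-- Conditions: finite prefix, established pairs, established search problems. -/
structure Cond where
  m : ℕ
  u : World
  est : ℕ → Option ℕ
  ee : ℕ → Option ℕ

variable (D : Data)

/-- Legal worlds below the length `L`. -/
structure Leg (c : Cond) (L : ℕ) (W : World) : Prop where
  pre : ∀ z : Str, z.length < c.m → W z = c.u z
  val : ∀ l a, c.est l = some a → ∀ z x, D.zr z l x → a ≤ z.length → z.length < L →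
    D.acc l x (W z) W
  prm : ∀ k a, c.ee k = some a → ∀ n, a ≤ n → k + 2 + n < L →
    ∃ y : Str, y.length = n ∧ W (D.encO k y) = true

/-- Legal worlds. -/
def Full (c : Cond) (W : World) : Prop := ∀ L, Leg D c L W

/-- Totality of the established pairs. -/
def Tot (c : Cond) : Prop :=
  ∀ L W, Leg D c L W → ∀ l a, c.est l = some a → ∀ x : Str, D.tp l x.length < L →
    ∃ b, D.acc l x b W

/-- Good conditions. -/
structure Good (c : Cond) : Prop where
  tot : Tot D c
  full : Full D c c.u

/-- `c'` is stronger than `c`. -/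
structure Le (c' c : Cond) : Prop where
  m : c.m ≤ c'.m
  u : ∀ z : Str, z.length < c.m → c'.u z = c.u z
  est : ∀ l a, c.est l = some a → c'.est l = some a
  ee : ∀ k a, c.ee k = some a → c'.ee k = some a

lemma Le.refl (c : Cond) : Le c c := ⟨le_rfl, fun _ _ => rfl, fun _ _ h => h, fun _ _ h => h⟩

lemma Le.trans {c'' c' c : Cond} (h' : Le c'' c') (h : Le c' c) : Le c'' c :=
  ⟨h.m.trans h'.m, fun z hz => (h'.u z (lt_of_lt_of_le hz h.m)).trans (h.u z hz),
    fun l a hl => h'.est l a (h.est l a hl), fun k a hk => h'.ee k a (h.ee k a hk)⟩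

variable {D}

lemma Leg.of_le {c' c : Cond} (h : Le c' c) {L : ℕ} {W : World} (hW : Leg D c' L W) :
    Leg D c L W :=
  ⟨fun z hz => (hW.pre z (lt_of_lt_of_le hz h.m)).trans (h.u z hz),
    fun l a hl => hW.val l a (h.est l a hl), fun k a hk => hW.prm k a (h.ee k a hk)⟩

lemma Full.of_le {c' c : Cond} (h : Le c' c) {W : World} (hW : Full D c' W) : Full D c W :=
  fun L => (hW L).of_le h

/-- Certificates depend on short strings only. -/
lemma acc_congr (l : ℕ) (x : Str) (b : Bool) {W W' : World} {L : ℕ} (hL : D.tp l x.length < L)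
    (h : ∀ z : Str, z.length < L → W z = W' z) (ha : D.acc l x b W) : D.acc l x b W' := by
  obtain ⟨Q, -, hQ, hQ'⟩ := D.acc_loc l x b W ha
  exact hQ' W' fun q hq => (h q (lt_of_le_of_lt (hQ q hq) hL)).symm

lemma tp_lt {z : Str} {l : ℕ} {x : Str} (h : D.zr z l x) : D.tp l x.length < z.length := by
  have := D.zlen z l x h
  omega

/-- Legality below `L` only depends on the strings shorter than `L` and on the prefix. -/
lemma Leg.congr {c : Cond} {L : ℕ} {W W' : World} (hW : Leg D c L W)
    (h : ∀ z : Str, z.length < L → W z = W' z) (hp : ∀ z : Str, z.length < c.m → W' z = c.u z) :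
    Leg D c L W' := by
  refine ⟨hp, fun l a hl z x hz ha hzL => ?_, fun k a hk n hn hnL => ?_⟩
  · rw [← h z hzL]
    exact acc_congr l x _ ((tp_lt hz).trans hzL) h (hW.val l a hl z x hz ha hzL)
  · obtain ⟨y, hy, hy'⟩ := hW.prm k a hk n hn hnL
    refine ⟨y, hy, ?_⟩
    rw [← h _ (by rw [D.encO_len, hy]; exact hnL)]
    exact hy'

lemma Leg.up {c : Cond} (hc : Good D c) {L : ℕ} {W : World} (hW : Leg D c L W) :
    Leg D c (max L c.m) W := by
  rcases le_total c.m L with h | h
  · rw [max_eq_left h]; exact hW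
  · rw [max_eq_right h]
    exact (hc.full c.m).congr (fun z hz => (hW.pre z hz).symm) hW.pre

/-- Extension of worlds. -/
theorem exists_ext {c : Cond} (hc : Tot D c) {L : ℕ} (hL : c.m ≤ L) {W : World}
    (hpre : ∀ z : Str, z.length < c.m → W z = c.u z)
    (hval : ∀ l a, c.est l = some a → ∀ z x, D.zr z l x → a ≤ z.length → z.length < L →
      D.acc l x (W z) W)
    (hprm : ∀ k a, c.ee k = some a → ∀ n, a ≤ n →
      ∃ y : Str, y.length = n ∧ W (D.encO k y) = true) :
    ∃ W' : World, Full D c W' ∧ ∀ z : Str, (z.length < L ∨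
      ¬ ∃ l a x, c.est l = some a ∧ D.zr z l x ∧ a ≤ z.length) → W' z = W z := by
  classical
  set isZ : Str → Prop := fun z => L ≤ z.length ∧
    ∃ l a x, c.est l = some a ∧ D.zr z l x ∧ a ≤ z.length with hisZ
  set upd : Str → World → Bool := fun z G =>
    if ∃ l x, D.zr z l x ∧ D.acc l x true G then true else false with hupd
  have hu : ∀ z, isZ z → ∀ G G' : World, (∀ q : Str, q.length < z.length → G q = G' q) →
      upd z G = upd z G' := by
    intro z hz G G' hG
    have e : (∃ l x, D.zr z l x ∧ D.acc l x true G) ↔ (∃ l x, D.zr z l x ∧ D.acc l x true G') := by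
      constructor
      · rintro ⟨l, x, h1, h2⟩
        exact ⟨l, x, h1, acc_congr l x _ (tp_lt h1) hG h2⟩
      · rintro ⟨l, x, h1, h2⟩
        exact ⟨l, x, h1, acc_congr l x _ (tp_lt h1) (fun q hq => (hG q hq).symm) h2⟩
    simp only [hupd, e]
  obtain ⟨W', h1, h2⟩ := exists_build isZ upd hu W
  have hagree : ∀ z : Str, (z.length < L ∨
      ¬ ∃ l a x, c.est l = some a ∧ D.zr z l x ∧ a ≤ z.length) → W' z = W z := by
    intro z hz
    refine h1 z fun hc => ?_
    rcases hz with h3 | h3
    · exact absurd hc.1 (not_le.2 h3)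
    · exact h3 hc.2
  have hpre' : ∀ z : Str, z.length < c.m → W' z = c.u z := fun z hz =>
    (hagree z (Or.inl (lt_of_lt_of_le hz hL))).trans (hpre z hz)
  have hprm' : ∀ k a, c.ee k = some a → ∀ n, a ≤ n →
      ∃ y : Str, y.length = n ∧ W' (D.encO k y) = true := by
    intro k a hk n hn
    obtain ⟨y, hy, hy'⟩ := hprm k a hk n hn
    refine ⟨y, hy, ?_⟩
    rw [hagree _ (Or.inr ?_)]
    · exact hy'
    · rintro ⟨l, a, x, -, h3, -⟩
      exact D.zO _ l x k y h3 rfl
  have hval' : ∀ N, Leg D c N W' := by
    intro N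
    induction N with
    | zero =>
      exact ⟨hpre', fun l a _ z x _ _ h => absurd h (Nat.not_lt_zero _),
        fun k a _ n _ h => absurd h (Nat.not_lt_zero _)⟩
    | succ N ih =>
      refine ⟨hpre', fun l a hl z x hz ha hzN => ?_, fun k a hk n hn _ => hprm' k a hk n hn⟩
      rcases lt_or_eq_of_le (Nat.lt_succ_iff.1 hzN) with h3 | h3
      · exact ih.val l a hl z x hz ha h3
      · by_cases hzL : z.length < L
        · rw [hagree z (Or.inl hzL)]
          exact acc_congr l x _ ((tp_lt hz).trans hzL) (fun q hq => (hagree q (Or.inl hq)).symm)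
            (hval l a hl z x hz ha hzL)
        · have hzZ : isZ z := ⟨not_lt.1 hzL, l, a, x, hl, hz, ha⟩
          obtain ⟨b, hb⟩ := hc N W' ih l a hl x (by rw [← h3]; exact tp_lt hz)
          rw [h2 z hzZ]
          simp only [hupd]
          split_ifs with h4
          · obtain ⟨l', x', h5, h6⟩ := h4
            obtain ⟨rfl, rfl⟩ := D.zr_unique z l x l' x' hz h5
            exact h6
          · rcases b with _ | _
            · exact hb
            · exact absurd ⟨l, x, hz, hb⟩ h4
  exact ⟨W', hval', hagree⟩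

/-- Extension of partial worlds. -/
theorem exists_full {c : Cond} (hc : Good D c) {L : ℕ} {W : World} (hW : Leg D c L W) :
    ∃ W' : World, Full D c W' ∧ ∀ z : Str, z.length < L → W' z = W z := by
  set L' := max L c.m with hL'
  have hW' := hW.up hc
  rw [← hL'] at hW'
  set W1 : World := fun z => if z.length < L' then W z else true with hW1
  have h1 : ∀ z : Str, z.length < L' → W1 z = W z := fun z hz => by
    rw [hW1]; simp only [if_pos hz]
  have hm : c.m ≤ L' := le_max_right _ _
  obtain ⟨W', h2, h3⟩ := exists_ext (D := D) hc.tot hm (W := W1)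
    (fun z hz => (h1 z (lt_of_lt_of_le hz hm)).trans (hW'.pre z hz))
    (fun l a hl z x hz ha hzL => by
      rw [h1 z hzL]
      exact acc_congr l x _ ((tp_lt hz).trans hzL) (fun q hq => (h1 q hq).symm)
        (hW'.val l a hl z x hz ha hzL))
    (fun k a hk n hn => by
      by_cases hn' : k + 2 + n < L'
      · obtain ⟨y, hy, hy'⟩ := hW'.prm k a hk n hn hn'
        refine ⟨y, hy, ?_⟩
        rw [h1 _ (by rw [D.encO_len, hy]; exact hn')]
        exact hy'
      · refine ⟨List.replicate n true, List.length_replicate, ?_⟩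
        rw [hW1]
        simp only
        rw [if_neg]
        rw [D.encO_len, List.length_replicate]
        exact hn')
  refine ⟨W', h2, fun z hz => ?_⟩
  have hz' : z.length < L' := lt_of_lt_of_le hz (le_max_left _ _)
  rw [h3 z (Or.inl hz'), h1 z hz']

/-! ### Stages -/

/-- Longer prefix. -/
theorem prefix_good {c : Cond} (hc : Good D c) {W : World} (hW : Full D c W) {m : ℕ}
    (hm : c.m ≤ m) : Good D { c with m := m, u := W } ∧ Le { c with m := m, u := W } c := by
  have hle : Le { c with m := m, u := W } c :=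
    ⟨hm, fun z hz => (hW 0).pre z hz, fun _ _ h => h, fun _ _ h => h⟩
  refine ⟨⟨fun L W' hW' l a hl x hx => ?_, fun L => ⟨fun _ _ => rfl, ?_, ?_⟩⟩, hle⟩
  · exact hc.tot L W' (hW'.of_le hle) l a hl x hx
  · exact fun l a hl z x hz ha hzL => (hW L).val l a hl z x hz ha hzL
  · exact fun k a hk n hn hnL => (hW L).prm k a hk n hn hnL

/-- Stage for a pair. -/
theorem stage_pair {c : Cond} (hc : Good D c) (l : ℕ) :
    ∃ c', Good D c' ∧ Le c' c ∧ c'.ee = c.ee ∧
      ((∃ x, ∀ W, Full D c' W → ∀ b, ¬ D.acc l x b W) ∨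
        ∃ a, c'.est l = some a) := by
  classical
  by_cases hl : ∃ a, c.est l = some a
  · exact ⟨c, hc, Le.refl c, rfl, Or.inr hl⟩
  by_cases h : ∃ W, Full D c W ∧ ∃ x, ∀ b, ¬ D.acc l x b W
  · obtain ⟨W, hW, x, hx⟩ := h
    obtain ⟨h1, h2⟩ := prefix_good hc hW (m := max c.m (D.tp l x.length + 1)) (le_max_left _ _)
    refine ⟨_, h1, h2, rfl, Or.inl ⟨x, fun W' hW' b hb => hx b ?_⟩⟩
    refine acc_congr l x b (L := D.tp l x.length + 1) (Nat.lt_succ_self _) (fun z hz => ?_) hb
    exact (hW' 0).pre z (lt_of_lt_of_le hz (le_max_right _ _))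
  · push Not at h
    set est' : ℕ → Option ℕ := Function.update c.est l (some c.m) with hest'
    have hself : est' l = some c.m := by rw [hest', Function.update_self]
    have hother : ∀ l', l' ≠ l → est' l' = c.est l' := fun l' hl' => by
      rw [hest', Function.update_of_ne hl']
    have hle : ∀ u' : World, (∀ z : Str, z.length < c.m → u' z = c.u z) →
        Le { c with est := est', u := u' } c := by
      intro u' hu'
      refine ⟨le_rfl, hu', fun l' a hl' => ?_, fun _ _ h => h⟩
      have hne : l' ≠ l := by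
        rintro rfl
        exact hl ⟨a, hl'⟩
      simp only
      rw [hother l' hne]
      exact hl'
    have htot : ∀ u' : World, (∀ z : Str, z.length < c.m → u' z = c.u z) →
        Tot D { c with est := est', u := u' } := by
      intro u' hu' L W hW l' a hl' x hx
      have hW0 : Leg D c L W := hW.of_le (hle u' hu')
      by_cases hne : l' = l
      · subst hne
        obtain ⟨W', hW', hag⟩ := exists_full hc hW0
        obtain ⟨b, hb⟩ := h W' hW' x
        exact ⟨b, acc_congr l' x b hx hag hb⟩
      · simp only at hl'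
        rw [hother l' hne] at hl'
        exact hc.tot L W hW0 l' a hl' x hx
    obtain ⟨W', h1, h2⟩ := exists_ext (D := D) (htot c.u fun _ _ => rfl) (L := c.m) le_rfl
      (W := c.u) (fun _ _ => rfl)
      (fun l' a hl' z x hz ha hzL => by
        by_cases hne : l' = l
        · subst hne
          simp only at hl'
          rw [hself] at hl'
          cases hl'
          omega
        · simp only at hl'
          rw [hother l' hne] at hl'
          exact (hc.full c.m).val l' a hl' z x hz ha hzL)
      (fun k a hk n hn => (hc.full (k + 2 + n + 1)).prm k a hk n hn (Nat.lt_succ_self _))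
    have hag : ∀ z : Str, z.length < c.m → W' z = c.u z := fun z hz => h2 z (Or.inl hz)
    refine ⟨{ c with est := est', u := W' }, ⟨htot W' hag, fun L => ⟨fun _ _ => rfl, ?_, ?_⟩⟩,
      hle W' hag, rfl, Or.inr ⟨c.m, hself⟩⟩
    · exact fun l' a hl' z x hz ha hzL => (h1 L).val l' a hl' z x hz ha hzL
    · exact fun k a hk n hn hnL => (h1 L).prm k a hk n hn hnL

/-- Stage for a search problem. -/
theorem stage_sol {c : Cond} (hc : Good D c) (k : ℕ) (hk : c.ee k = none) :
    ∃ c', Good D c' ∧ Le c' c ∧ ((c'.ee = c.ee ∧ ∃ q, ∀ W, Full D c' W → ∀ w, ¬ D.sol k q w W) ∨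
      (c'.ee = Function.update c.ee k (some c.m) ∧ c'.m = c.m ∧
        ∀ W, Full D c W → ∀ q, ∃ w, D.sol k q w W)) := by
  classical
  by_cases h : ∃ W, Full D c W ∧ ∃ q, ∀ w, ¬ D.sol k q w W
  · obtain ⟨W, hW, q, hq⟩ := h
    obtain ⟨L, hL⟩ := D.sol_loc k q
    obtain ⟨h1, h2⟩ := prefix_good hc hW (m := max c.m L) (le_max_left _ _)
    refine ⟨_, h1, h2, Or.inl ⟨rfl, q, fun W' hW' w hw => hq w ?_⟩⟩
    refine hL W' W (fun z hz => ?_) w hw
    exact (hW' 0).pre z (lt_of_lt_of_le hz (le_max_right _ _))
  · push Not at h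
    set ee' : ℕ → Option ℕ := Function.update c.ee k (some c.m) with hee'
    have hself : ee' k = some c.m := by rw [hee', Function.update_self]
    have hother : ∀ k', k' ≠ k → ee' k' = c.ee k' := fun k' hk' => by
      rw [hee', Function.update_of_ne hk']
    have hle : ∀ u' : World, (∀ z : Str, z.length < c.m → u' z = c.u z) →
        Le { c with ee := ee', u := u' } c := by
      intro u' hu'
      refine ⟨le_rfl, hu', fun _ _ h => h, fun k' a hk' => ?_⟩
      have hne : k' ≠ k := by
        rintro rfl
        rw [hk] at hk'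
        cases hk'
      simp only
      rw [hother k' hne]
      exact hk'
    have htot : ∀ u' : World, (∀ z : Str, z.length < c.m → u' z = c.u z) →
        Tot D { c with ee := ee', u := u' } := by
      intro u' hu' L W hW l' a hl' x hx
      exact hc.tot L W (hW.of_le (hle u' hu')) l' a hl' x hx
    set W1 : World := fun z => if z.length < c.m then c.u z else true with hW1
    have hW1' : ∀ z : Str, z.length < c.m → W1 z = c.u z := fun z hz => by
      rw [hW1]; simp only [if_pos hz]
    obtain ⟨W', h1, h2⟩ := exists_ext (D := D) (htot c.u fun _ _ => rfl) (L := c.m) le_rfl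
      (W := W1) hW1'
      (fun l' a hl' z x hz ha hzL => by
        rw [hW1' z hzL]
        exact acc_congr l' x _ ((tp_lt hz).trans hzL) (fun q hq => (hW1' q hq).symm)
          ((hc.full c.m).val l' a hl' z x hz ha hzL))
      (fun k' a hk' n hn => by
        by_cases hn' : k' + 2 + n < c.m
        · have hne : k' ≠ k := by
            rintro rfl
            simp only at hk'
            rw [hself] at hk'
            cases hk'
            omega
          simp only at hk'
          rw [hother k' hne] at hk'
          obtain ⟨y, hy, hy'⟩ := (hc.full c.m).prm k' a hk' n hn hn'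
          refine ⟨y, hy, ?_⟩
          rw [hW1' _ (by rw [D.encO_len, hy]; exact hn')]
          exact hy'
        · refine ⟨List.replicate n true, List.length_replicate, ?_⟩
          rw [hW1]
          simp only
          rw [if_neg]
          rw [D.encO_len, List.length_replicate]
          exact hn')
    have hag : ∀ z : Str, z.length < c.m → W' z = c.u z := fun z hz =>
      (h2 z (Or.inl hz)).trans (hW1' z hz)
    refine ⟨{ c with ee := ee', u := W' }, ⟨htot W' hag, fun L => ⟨fun _ _ => rfl, ?_, ?_⟩⟩,
      hle W' hag, Or.inr ⟨rfl, rfl, h⟩⟩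
    · exact fun l' a hl' z x hz ha hzL => (h1 L).val l' a hl' z x hz ha hzL
    · exact fun k a hk n hn hnL => (h1 L).prm k a hk n hn hnL

end Pool.Agent.S1
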