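import Pool.Agent.Work.MP_46935e_lc.S1.Cond

/-!
# The diagonalisation stage
-/

set_option autoImplicit false

open Finset

noncomputable section

namespace Pool.Agent.S1

variable {D : Data}

/-- The free strings. -/
def dO (D : Data) (k n : ℕ) (z : Str) : Prop := ∃ y : Str, y.length = n ∧ z = D.encO k y

/-- The certified strings. -/
def dZ (D : Data) (c : Cond) (z : Str) : Prop :=
  c.m ≤ z.length ∧ ∃ l a x, c.est l = some a ∧ D.zr z l x ∧ a ≤ z.length

/-- The system of the stage. -/
def dsys (D : Data) (c : Cond) (k n : ℕ) : Sys where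
  isO := dO D k n
  isZ := dZ D c
  v := fun z => if z.length < c.m then c.u z else true
  cert := fun z b W => ∃ l x, D.zr z l x ∧ D.acc l x b W
  oz := by
    rintro z ⟨y, -, rfl⟩ ⟨-, l, a, x, -, h, -⟩
    exact D.zO _ l x k y h rfl
  pos := by
    rintro z ⟨-, l, a, x, -, h, -⟩
    exact (D.zlen z l x h).2
  loc := by
    rintro z b W - ⟨l, x, h, hc⟩
    obtain ⟨Q, h1, h2, h3⟩ := D.acc_loc l x b W hc
    have h4 := (D.zlen z l x h).1
    exact ⟨Q, by omega, fun q hq => (h2 q hq).trans (by omega), fun W' hW' =>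
      ⟨l, x, h, h3 W' hW'⟩⟩

lemma dsys_v_lt {c : Cond} {k n : ℕ} {z : Str} (h : z.length < c.m) :
    (dsys D c k n).v z = c.u z := if_pos h

lemma dsys_v_ge {c : Cond} {k n : ℕ} {z : Str} (h : c.m ≤ z.length) :
    (dsys D c k n).v z = true := if_neg (not_lt.2 h)

lemma not_dO_lt {c : Cond} {k n : ℕ} (hn : c.m ≤ n) {z : Str} (h : z.length < c.m) :
    ¬ dO D k n z := by
  rintro ⟨y, hy, rfl⟩
  rw [D.encO_len] at h
  omega

lemma not_dZ_lt {c : Cond} {z : Str} (h : z.length < c.m) : ¬ dZ D c z :=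
  fun hc => absurd hc.1 (not_le.2 h)

/-- From the rules of the system to the rules of the condition. -/
lemma leg_of {c : Cond} (hc : Good D c) {k n : ℕ} (hn : c.m ≤ n) {L : ℕ} {W : World}
    (h1 : ∀ z, ¬ dO D k n z → ¬ dZ D c z → W z = (dsys D c k n).v z)
    (h2 : ∃ z, dO D k n z ∧ W z = true)
    (h3 : ∀ z, dZ D c z → z.length < L → (dsys D c k n).cert z (W z) W) : Leg D c L W := by
  have hpre : ∀ z : Str, z.length < c.m → W z = c.u z := fun z hz => by
    rw [h1 z (not_dO_lt hn hz) (not_dZ_lt hz), dsys_v_lt hz]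
  refine ⟨hpre, fun l a hl z x hz ha hzL => ?_, fun k' a hk' n' hn' hnL => ?_⟩
  · rcases lt_or_ge z.length c.m with hm | hm
    · rw [hpre z hm]
      exact acc_congr l x _ ((tp_lt hz).trans hm) (fun q hq => (hpre q hq).symm)
        ((hc.full c.m).val l a hl z x hz ha hm)
    · obtain ⟨l', x', h4, h5⟩ := h3 z ⟨hm, l, a, x, hl, hz, ha⟩ hzL
      obtain ⟨rfl, rfl⟩ := D.zr_unique z l x l' x' hz h4
      exact h5
  · by_cases hm : k' + 2 + n' < c.m
    · obtain ⟨y, hy, hy'⟩ := (hc.full c.m).prm k' a hk' n' hn' hm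
      refine ⟨y, hy, ?_⟩
      rw [hpre _ (by rw [D.encO_len, hy]; exact hm)]
      exact hy'
    · by_cases hkn : k' = k ∧ n' = n
      · obtain ⟨rfl, rfl⟩ := hkn
        obtain ⟨z, ⟨y, hy, rfl⟩, h4⟩ := h2
        exact ⟨y, hy, h4⟩
      · refine ⟨List.replicate n' true, List.length_replicate, ?_⟩
        rw [h1 _ ?_ ?_]
        · apply dsys_v_ge
          rw [D.encO_len, List.length_replicate]
          omega
        · rintro ⟨y, hy, h4⟩
          obtain ⟨h5, h6⟩ := D.encO_inj _ _ _ _ h4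
          refine hkn ⟨h5, ?_⟩
          rw [← h6, List.length_replicate] at hy
          exact hy
        · rintro ⟨-, l, a, x, -, h4, -⟩
          exact D.zO _ l x k' _ h4 rfl

lemma full_of_legal {c : Cond} (hc : Good D c) {k n : ℕ} (hn : c.m ≤ n) {W : World}
    (h : (dsys D c k n).Legal W) : Full D c W := fun _ =>
  leg_of hc hn h.fix h.ne fun z hz _ => h.val z hz

lemma dsys_total {c : Cond} (hc : Good D c) {k n : ℕ} (hn : c.m ≤ n) :
    (dsys D c k n).Total := by
  intro W z h1 h2 h3 hz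
  have hleg : Leg D c z.length W := leg_of hc hn h1 h2 fun z' hz' hl => h3 z' hz' hl
  obtain ⟨-, l, a, x, hl, hzr, ha⟩ := hz
  obtain ⟨b, hb⟩ := hc.tot z.length W hleg l a hl x (tp_lt hzr)
  exact ⟨b, l, x, hzr, hb⟩

/-- The base family. -/
lemma dsys_base {c : Cond} (hc : Good D c) {k n : ℕ} (hn : c.m ≤ n) (y : Str)
    (hy : y.length = n) : ∃ W, (dsys D c k n).Legal W ∧
      ∀ y' : Str, y'.length = n → (W (D.encO k y') = true ↔ y' = y) := by
  classical
  set W1 : World := fun z => if z.length < c.m then c.u z else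
    if dO D k n z then decide (z = D.encO k y) else true with hW1
  have e1 : ∀ z : Str, z.length < c.m → W1 z = c.u z := fun z hz => by
    rw [hW1]; simp only [if_pos hz]
  have e2 : ∀ z : Str, dO D k n z → W1 z = decide (z = D.encO k y) := fun z hz => by
    have h1 : ¬ z.length < c.m := fun h => not_dO_lt hn h hz
    rw [hW1]; simp only [if_neg h1, if_pos hz]
  have e3 : ∀ z : Str, c.m ≤ z.length → ¬ dO D k n z → W1 z = true := fun z hz h => by
    rw [hW1]; simp only [if_neg (not_lt.2 hz), if_neg h]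
  obtain ⟨W, h1, h2⟩ := exists_ext (D := D) hc.tot (L := c.m) le_rfl (W := W1) e1
    (fun l a hl z x hz ha hzL => by
      rw [e1 z hzL]
      exact acc_congr l x _ ((tp_lt hz).trans hzL) (fun q hq => (e1 q hq).symm)
        ((hc.full c.m).val l a hl z x hz ha hzL))
    (fun k' a hk' n' hn' => by
      by_cases hm : k' + 2 + n' < c.m
      · obtain ⟨y', hy', hy''⟩ := (hc.full c.m).prm k' a hk' n' hn' hm
        refine ⟨y', hy', ?_⟩
        rw [e1 _ (by rw [D.encO_len, hy']; exact hm)]
        exact hy''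
      · by_cases hkn : k' = k ∧ n' = n
        · obtain ⟨rfl, rfl⟩ := hkn
          refine ⟨y, hy, ?_⟩
          rw [e2 _ ⟨y, hy, rfl⟩]
          simp
        · refine ⟨List.replicate n' true, List.length_replicate, ?_⟩
          apply e3
          · rw [D.encO_len, List.length_replicate]
            omega
          · rintro ⟨y', hy', h4⟩
            obtain ⟨h5, h6⟩ := D.encO_inj _ _ _ _ h4
            refine hkn ⟨h5, ?_⟩
            rw [← h6, List.length_replicate] at hy'
            exact hy')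
  have h3 : ∀ z, ¬ dZ D c z → W z = W1 z := by
    intro z hz
    apply h2
    by_cases hm : z.length < c.m
    · exact Or.inl hm
    · exact Or.inr fun hc' => hz ⟨not_lt.1 hm, hc'⟩
  have hoz : ∀ z, dO D k n z → ¬ dZ D c z := (dsys D c k n).oz
  refine ⟨W, ⟨?_, ?_, ?_⟩, ?_⟩
  · intro z hz hz'
    rw [h3 z hz']
    by_cases hm : z.length < c.m
    · rw [e1 z hm, dsys_v_lt hm]
    · rw [e3 z (not_lt.1 hm) hz, dsys_v_ge (not_lt.1 hm)]
  · refine ⟨D.encO k y, ⟨y, hy, rfl⟩, ?_⟩
    rw [h3 _ (hoz _ ⟨y, hy, rfl⟩), e2 _ ⟨y, hy, rfl⟩]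
    simp
  · rintro z ⟨-, l, a, x, hl, hzr, ha⟩
    exact ⟨l, x, hzr, (h1 (z.length + 1)).val l a hl z x hzr ha (Nat.lt_succ_self _)⟩
  · intro y' hy'
    rw [h3 _ (hoz _ ⟨y', hy', rfl⟩), e2 _ ⟨y', hy', rfl⟩]
    simp only [decide_eq_true_eq]
    constructor
    · intro h4
      exact (D.encO_inj _ _ _ _ h4).2
    · rintro rfl
      rfl

/-- Strings of length `n`. -/
lemma dsys_good {c : Cond} (hc : Good D c) {k n : ℕ} (hn : c.m ≤ n) (A : ℝ) :
    ∃ (d : World) (Ω : Type) (_ : Fintype Ω) (_ : Nonempty Ω) (Wf : Ω → World),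
      (dsys D c k n).Good n A 0 d Wf := by
  classical
  choose Wf hleg hWf using fun f : Fin n → Bool =>
    dsys_base (D := D) hc (k := k) hn (List.ofFn f) (List.length_ofFn)
  refine ⟨fun z => if dO D k n z then false else (dsys D c k n).v z, Fin n → Bool, inferInstance,
    inferInstance, Wf, hleg, fun z hz => if_pos hz, fun z hz _ => if_neg hz, ?_, ?_⟩
  · intro z hz hl
    have := (dsys D c k n).pos z hz
    rw [pow_zero] at hl
    omega
  · intro z hz
    have hz' : dO D k n z := by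
      rcases hz with h | h
      · exact h
      · have := (dsys D c k n).pos z h.1
        have h2 := h.2
        rw [pow_zero] at h2
        omega
    obtain ⟨y, hy, rfl⟩ := hz'
    simp only [if_pos (show dO D k n (D.encO k y) from ⟨y, hy, rfl⟩)]
    rw [pow_zero, one_mul]
    subst hy
    have h1 : ∀ f : Fin y.length → Bool, Wf f (D.encO k y) ≠ false → f = fun i => y.get i := by
      intro f hf
      have h2 : Wf f (D.encO k y) = true := by simpa using hf
      have h3 := (hWf f y rfl).1 h2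
      apply List.ofFn_injective
      rw [← h3]
      exact (List.ofFn_get y).symm
    have h2 : pr (fun f : Fin y.length → Bool => Wf f (D.encO k y) ≠ false) ≤
        pr (fun f : Fin y.length → Bool => f = fun i => y.get i) := pr_mono h1
    refine h2.trans (le_of_eq ?_)
    unfold pr
    rw [sum_eq_single (fun i => y.get i)]
    · rw [ind_true rfl, Fintype.card_fun, Fintype.card_bool, Fintype.card_fin]
      push_cast
      rw [one_div, one_div, inv_pow]
    · intro f _ hf
      exact ind_false hf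
    · intro h
      exact absurd (mem_univ _) h

/-- The diagonalisation stage. -/
theorem stage_diag {c c0 : Cond} (hc : Good D c) (hc0 : Good D c0) (hle : Le c c0) {k : ℕ}
    (hk : c0.ee k = none) (hsol : ∀ W, Full D c0 W → ∀ q, ∃ w, D.sol k q w W) (r a : ℕ) :
    ∃ c', Good D c' ∧ Le c' c ∧ c'.ee = c.ee ∧ c'.est = c.est ∧
      ∃ n, a ≤ n ∧ ∀ W, Full D c' W → D.fail k r n W := by
  classical
  obtain ⟨n, hn, hna, hn1, J, hJ1, hJ2⟩ : ∃ n, c.m ≤ n ∧ a ≤ n ∧ 1 ≤ n ∧ ∃ J,
      D.X k r n < 2 ^ J ∧ (D.X k r n : ℝ) * ((Sys.amC n J + 1) ^ J * (1 / 2) ^ n) < 1 := by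
    obtain ⟨n, h1, h2, h3, h4⟩ := ((Filter.eventually_ge_atTop c.m).and
      ((Filter.eventually_ge_atTop a).and ((Filter.eventually_ge_atTop 1).and
        (D.X_small k r)))).exists
    exact ⟨n, h1, h2, h3, h4⟩
  obtain ⟨d, Ω, i1, i2, Wf, hgood⟩ := dsys_good (D := D) hc (k := k) hn (Sys.amC n J)
  obtain ⟨d', hdO, hdfix, hdval, hdD⟩ := (dsys D c k n).amplify (dsys_total hc hn) hn1 J hgood
  have hXge := D.X_ge k r n
  have hpre : ∀ z : Str, z.length < c.m → d' z = c.u z := fun z hz => by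
    rw [hdfix z (not_dO_lt hn hz) (not_dZ_lt hz), dsys_v_lt hz]
  have hu0 : Full D c0 c.u := hc.full.of_le hle
  have hleg : ∀ L, L ≤ 2 ^ J → Leg D c0 L d' := by
    intro L
    induction L with
    | zero =>
      intro _
      exact ⟨fun z hz => (hpre z (lt_of_lt_of_le hz hle.m)).trans (hle.u z hz),
        fun l a _ z x _ _ h => absurd h (Nat.not_lt_zero _),
        fun k a _ n _ h => absurd h (Nat.not_lt_zero _)⟩
    | succ L ih =>
      intro hL
      have ih' := ih (by omega)
      refine ⟨ih'.pre, fun l a' hl z x hz ha hzL => ?_, fun k' a' hk' n' hn' hnL => ?_⟩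
      · rcases lt_or_eq_of_le (Nat.lt_succ_iff.1 hzL) with h1 | h1
        · exact ih'.val l a' hl z x hz ha h1
        · rcases lt_or_ge z.length c.m with hm | hm
          · rw [hpre z hm]
            exact acc_congr l x _ ((tp_lt hz).trans hm) (fun q hq => (hpre q hq).symm)
              ((hu0 c.m).val l a' hl z x hz ha hm)
          · have hzZ : dZ D c z := ⟨hm, l, a', x, hle.est l a' hl, hz, ha⟩
            obtain ⟨b, hb⟩ := hc0.tot L d' ih' l a' hl x (by rw [← h1]; exact tp_lt hz)
            obtain ⟨l', x', h2, h3⟩ := hdval z hzZ (by omega) b ⟨l, x, hz, hb⟩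
            obtain ⟨rfl, rfl⟩ := D.zr_unique z l x l' x' hz h2
            exact h3
      · by_cases hm : k' + 2 + n' < c.m
        · obtain ⟨y, hy, hy'⟩ := (hu0 c.m).prm k' a' hk' n' hn' hm
          refine ⟨y, hy, ?_⟩
          rw [hpre _ (by rw [D.encO_len, hy]; exact hm)]
          exact hy'
        · refine ⟨List.replicate n' true, List.length_replicate, ?_⟩
          rw [hdfix _ ?_ ?_]
          · apply dsys_v_ge
            rw [D.encO_len, List.length_replicate]
            omega
          · rintro ⟨y, hy, h4⟩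
            obtain ⟨h5, h6⟩ := D.encO_inj _ _ _ _ h4
            rw [h5, hk] at hk'
            cases hk'
          · rintro ⟨-, l, a, x, -, h4, -⟩
            exact D.zO _ l x k' _ h4 rfl
  obtain ⟨W₀, hW₀, hag⟩ := exists_full hc0 (hleg (2 ^ J) le_rfl)
  obtain ⟨Ds, hD1, hD2, hD3⟩ := D.fail_spec k r n W₀ (hsol W₀ hW₀) (by
    intro y hy
    rw [hag _ (by rw [D.encO_len]; omega)]
    exact hdO _ ⟨y, hy, rfl⟩)
  obtain ⟨W, hW1, hW2⟩ := hdD Ds (fun z hz _ => lt_of_le_of_lt (hD2 z hz) hJ1) (by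
    refine lt_of_le_of_lt (mul_le_mul_of_nonneg_right ?_ ?_) hJ2
    · exact_mod_cast hD1
    · have := Sys.amC_nonneg n J
      positivity)
  have hWf := full_of_legal hc hn hW1
  obtain ⟨h1, h2⟩ := prefix_good hc hWf (m := max c.m (D.X k r n + 1)) (le_max_left _ _)
  refine ⟨_, h1, h2, rfl, rfl, n, hna, fun W' hW' => hD3 W' ?_ ?_⟩
  · exact hsol W' ((hW'.of_le h2).of_le hle)
  · intro z hz
    have h3 := hD2 z hz
    rw [(hW' 0).pre z (lt_of_lt_of_le (Nat.lt_succ_of_le h3) (le_max_right _ _))]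
    simp only
    rw [hW2 z hz, hag z (by omega)]

end Pool.Agent.S1
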